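import Mathlib
import Pool.Agent.Helper77.EHR.P.Defs

/-! MP_4f9849, all exponential polynomials: definitions. -/

namespace Pool.Agent.Helper77.EHR.Q

/-- polynomials in `z` (inner variable) and `w_i`. -/
abbrev B (σ : Type) := MvPolynomial σ (Polynomial ℂ)

/-- evaluation at `z` and `w_i = e^{i ν_i z}`. -/
noncomputable def evB {σ : Type} (ν : σ → ℝ) (z : ℂ) : B σ →+* ℂ :=
  MvPolynomial.eval₂Hom (Polynomial.evalRingHom z)
    (fun i => Complex.exp (Complex.I * (ν i : ℂ) * z))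

/-- evaluation of polynomials without `z`. -/
noncomputable def evC {σ : Type} (ν : σ → ℝ) (z : ℂ) : MvPolynomial σ ℂ →+* ℂ :=
  MvPolynomial.eval₂Hom (RingHom.id ℂ) (fun i => Complex.exp (Complex.I * (ν i : ℂ) * z))

/-- logarithmic strip of slope `t`, `sg = 1` to the right, `sg = -1` to the left. -/
def Str (sg t H : ℝ) : Set ℂ :=
  {z | 1 ≤ sg * z.re ∧ |z.im - t * Real.log (sg * z.re)| ≤ H}

/-- the point moved to the horizontal strip. -/
noncomputable def low (sg t : ℝ) (z : ℂ) : ℂ :=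
  z - Complex.I * ((t * Real.log (sg * z.re) : ℝ) : ℂ)

/-- the frequencies of `w₀` (`none`) and `w_j` (`some j`). -/
def nu {r : ℕ} (ω0 : ℝ) (ω : Fin r → ℝ) : Option (Fin r) → ℝ := fun o => o.elim ω0 ω

/-- rational independence. -/
def IndB {σ : Type} [Fintype σ] (ν : σ → ℝ) : Prop :=
  ∀ h : σ → ℤ, ∑ i, (h i : ℝ) * ν i = 0 → h = 0

end Pool.Agent.Helper77.EHR.Q
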