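import Mathlib
import Pool.Agent.Helper77.EHR.Q.Defs

/-! MP_4f9849, rows N7a and N7b: the derivation `z ↦ 1`, `w_j ↦ i ν_j w_j`. -/

namespace Pool.Agent.Helper77.EHR.Q

namespace DerB

/-- the derivation on the coefficients of the monomial with exponent sum `c`. -/
noncomputable def D (c : ℂ) (p : Polynomial ℂ) : Polynomial ℂ :=
  Polynomial.C c * p + p.derivative

lemma D_zero (c : ℂ) : D c 0 = 0 := by simp [D]

lemma D_natDegree (c : ℂ) (p : Polynomial ℂ) : (D c p).natDegree ≤ p.natDegree := by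
  unfold D
  refine (Polynomial.natDegree_add_le _ _).trans (max_le ?_ ?_)
  · exact Polynomial.natDegree_C_mul_le _ _
  · exact (Polynomial.natDegree_derivative_le p).trans (Nat.sub_le _ _)

variable {σ : Type} [Fintype σ]

/-- the frequency of a monomial. -/
noncomputable def mu (ν : σ → ℝ) (m : σ →₀ ℕ) : ℂ := ∑ j, (m j : ℂ) * (ν j : ℂ)

/-- the derivative. -/
noncomputable def DD (ν : σ → ℝ) (P : B σ) : B σ :=
  ∑ m ∈ P.support, MvPolynomial.monomial m (D (Complex.I * mu ν m) (P.coeff m))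

lemma DD_coeff (ν : σ → ℝ) (P : B σ) (m : σ →₀ ℕ) :
    (DD ν P).coeff m = D (Complex.I * mu ν m) (P.coeff m) := by
  classical
  unfold DD
  rw [MvPolynomial.coeff_sum]
  simp only [MvPolynomial.coeff_monomial]
  rw [Finset.sum_ite_eq' P.support m]
  split_ifs with h
  · rfl
  · rw [MvPolynomial.notMem_support_iff.1 h, D_zero]

lemma ev_monomial (ν : σ → ℝ) (z : ℂ) (m : σ →₀ ℕ) (p : Polynomial ℂ) :
    evB ν z (MvPolynomial.monomial m p) = p.eval z * Complex.exp (Complex.I * mu ν m * z) := by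
  unfold evB mu
  rw [MvPolynomial.eval₂Hom_monomial, Polynomial.coe_evalRingHom, Finsupp.prod_fintype _ _
    (fun i => pow_zero _)]
  congr 1
  rw [Finset.mul_sum, Finset.sum_mul, Complex.exp_sum]
  refine Finset.prod_congr rfl fun j _ => ?_
  rw [← Complex.exp_nat_mul]
  congr 1
  ring

lemma hasDeriv_monomial (ν : σ → ℝ) (z : ℂ) (m : σ →₀ ℕ) (p : Polynomial ℂ) :
    HasDerivAt (fun z => evB ν z (MvPolynomial.monomial m p))
      (evB ν z (MvPolynomial.monomial m (D (Complex.I * mu ν m) p))) z := by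
  simp only [ev_monomial]
  have h2 : HasDerivAt (fun z : ℂ => Complex.exp (Complex.I * mu ν m * z))
      (Complex.exp (Complex.I * mu ν m * z) * (Complex.I * mu ν m)) z := by
    have h := ((hasDerivAt_id z).const_mul (Complex.I * mu ν m)).cexp
    simpa using h
  have h4 := (Polynomial.hasDerivAt p z).mul h2
  refine h4.congr_deriv ?_
  unfold D
  simp only [Polynomial.eval_add, Polynomial.eval_mul, Polynomial.eval_C]
  ring

lemma hasDeriv (ν : σ → ℝ) (z : ℂ) (P : B σ) :
    HasDerivAt (fun z => evB ν z P) (evB ν z (DD ν P)) z := by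
  have h1 : ∀ w, evB ν w P =
      ∑ m ∈ P.support, evB ν w (MvPolynomial.monomial m (P.coeff m)) := by
    intro w
    rw [← map_sum, MvPolynomial.support_sum_monomial_coeff]
  simp only [h1]
  unfold DD
  rw [map_sum]
  exact HasDerivAt.fun_sum fun m _ => hasDeriv_monomial ν z m (P.coeff m)

end DerB

open DerB

variable {σ : Type} [Fintype σ] [DecidableEq σ]

omit [DecidableEq σ] in
/-- ROW N7a (the derivation exists). -/
theorem derivB_ex (ν : σ → ℝ) (P : B σ) :
    ∃ Q : B σ, ∀ z, HasDerivAt (fun z => evB ν z P) (evB ν z Q) z :=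
  ⟨DD ν P, fun z => hasDeriv ν z P⟩

omit [DecidableEq σ] in
/-- ROW N7b (the derivative is not divisible). -/
theorem derivB (ν : σ → ℝ) (hind : IndB ν) (P : B σ) :
    (∀ z, evB ν z P ≠ 0) ∨ P = 0 ∨ ∃ Q : B σ, ¬ P ∣ Q ∧
      ∀ z, HasDerivAt (fun z => evB ν z P) (evB ν z Q) z := by
  classical
  by_cases hP : P = 0
  · exact Or.inr (Or.inl hP)
  by_cases hdvd : P ∣ DD ν P
  swap
  · exact Or.inr (Or.inr ⟨_, hdvd, fun z => hasDeriv ν z P⟩)
  left
  obtain ⟨S, hS⟩ := hdvd
  -- the quotient is a constant polynomial in the `w_j`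
  obtain ⟨s, rfl⟩ : ∃ s : Polynomial ℂ, S = MvPolynomial.C s := by
    by_cases hS0 : S = 0
    · exact ⟨0, by rw [hS0, map_zero]⟩
    have h1 : (DD ν P).totalDegree ≤ P.totalDegree := by
      refine MvPolynomial.totalDegree_le_of_support_subset fun m hm => ?_
      rw [MvPolynomial.mem_support_iff] at hm ⊢
      intro h
      rw [DD_coeff, h, D_zero] at hm
      exact hm rfl
    rw [hS, MvPolynomial.totalDegree_mul_of_isDomain hP hS0] at h1
    exact ⟨_, (MvPolynomial.totalDegree_eq_zero_iff_eq_C (p := S)).1 (by omega)⟩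
  have hco : ∀ m, D (Complex.I * mu ν m) (P.coeff m) = P.coeff m * s := by
    intro m
    rw [← DD_coeff, hS, mul_comm P, MvPolynomial.coeff_C_mul, mul_comm]
  obtain ⟨m0, hm0⟩ := MvPolynomial.ne_zero_iff.1 hP
  -- and in `z`
  obtain ⟨c, rfl⟩ : ∃ c : ℂ, s = Polynomial.C c := by
    by_cases hs0 : s = 0
    · exact ⟨0, by rw [hs0, map_zero]⟩
    have h1 := D_natDegree (Complex.I * mu ν m0) (P.coeff m0)
    rw [hco m0, Polynomial.natDegree_mul hm0 hs0] at h1
    exact ⟨_, Polynomial.eq_C_of_natDegree_eq_zero (by omega)⟩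
  have hcm : ∀ m, P.coeff m ≠ 0 → Complex.I * mu ν m = c := by
    intro m h
    have h1 := congrArg (fun p : Polynomial ℂ => p.coeff (P.coeff m).natDegree) (hco m)
    simp only [D, Polynomial.coeff_add, Polynomial.coeff_C_mul, Polynomial.coeff_mul_C,
      Polynomial.coeff_derivative] at h1
    rw [Polynomial.coeff_eq_zero_of_natDegree_lt (Nat.lt_succ_self _), zero_mul, add_zero,
      mul_comm ((P.coeff m).coeff (P.coeff m).natDegree)] at h1
    refine mul_right_cancel₀ ?_ h1
    rw [Polynomial.coeff_natDegree]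
    exact Polynomial.leadingCoeff_ne_zero.2 h
  have hcst : ∀ m, (P.coeff m).derivative = 0 := by
    intro m
    by_cases h : P.coeff m = 0
    · rw [h, Polynomial.derivative_zero]
    have h1 := hco m
    rw [D, hcm m h, mul_comm (P.coeff m)] at h1
    exact left_eq_add.1 h1.symm
  have huniq : ∀ m, P.coeff m ≠ 0 → m = m0 := by
    intro m h
    have h1 : Complex.I * mu ν m = Complex.I * mu ν m0 := (hcm m h).trans (hcm m0 hm0).symm
    have h2 := mul_left_cancel₀ Complex.I_ne_zero h1
    unfold mu at h2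
    have h3 : ∑ j, (m j : ℝ) * ν j = ∑ j, (m0 j : ℝ) * ν j := by exact_mod_cast h2
    have h4 := hind (fun j => (m j : ℤ) - m0 j) (by
      push_cast
      simp only [sub_mul, Finset.sum_sub_distrib]
      linarith)
    refine Finsupp.ext fun j => ?_
    have h5 := congrFun h4 j
    simp only [Pi.zero_apply] at h5
    omega
  have hx : P.coeff m0 = Polynomial.C ((P.coeff m0).coeff 0) :=
    Polynomial.eq_C_of_natDegree_eq_zero (Polynomial.derivative_eq_zero.1 (hcst m0))
  have hPm : P = MvPolynomial.monomial m0 (P.coeff m0) := by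
    refine MvPolynomial.ext _ _ fun m => ?_
    rw [MvPolynomial.coeff_monomial]
    by_cases hm : m0 = m
    · rw [if_pos hm, hm]
    · rw [if_neg hm]
      by_contra h1
      exact hm (huniq m h1).symm
  intro z
  rw [hPm, ev_monomial, hx, Polynomial.eval_C]
  refine mul_ne_zero ?_ (Complex.exp_ne_zero _)
  intro h0
  rw [h0, map_zero] at hx
  exact hm0 hx

end Pool.Agent.Helper77.EHR.Q
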