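import Mathlib
import Pool.Agent.Helper77.EHR.Q.Defs
import Pool.Agent.Helper77.EHR.Zeros
import Pool.Agent.EHD.Low

/-! MP_4f9849: boundedly many zeros of an exponential polynomial in small discs. -/

set_option autoImplicit false

namespace Pool.Agent.Helper77.EHR.Q

open Filter Topology

/-- exponential polynomial with given coefficients -/
noncomputable def F62 {ι : Type*} [Fintype ι] (l : ι → ℝ) {D : ℕ} (c : ι → Fin D → ℂ) (z : ℂ) : ℂ :=
  ∑ j, (∑ m : Fin D, c j m * z ^ (m : ℕ)) * Complex.exp (Complex.I * (l j : ℂ) * z)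

section
variable {ι : Type*} [Fintype ι] (l : ι → ℝ) {D : ℕ}

lemma F62_diff (c : ι → Fin D → ℂ) : Differentiable ℂ (F62 l c) := by
  unfold F62
  fun_prop

lemma F62_cont (z : ℂ) : Continuous fun c : ι → Fin D → ℂ => F62 l c z := by
  unfold F62
  fun_prop

/-- bound on the disc of radius two -/
lemma F62_bound (c : ι → Fin D → ℂ) (hc : ‖c‖ ≤ 1) (z : ℂ) (hz : ‖z‖ ≤ 2) :
    ‖F62 l c z‖ ≤ ∑ j, (∑ m : Fin D, (2:ℝ) ^ (m : ℕ)) * Real.exp (|l j| * 2) := by
  unfold F62
  refine (norm_sum_le _ _).trans (Finset.sum_le_sum fun j _ => ?_)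
  rw [norm_mul]
  refine mul_le_mul ((norm_sum_le _ _).trans (Finset.sum_le_sum fun m _ => ?_)) ?_
    (norm_nonneg _) (Finset.sum_nonneg fun m _ => by positivity)
  · rw [norm_mul, norm_pow]
    have h1 : ‖c j m‖ ≤ 1 := ((norm_le_pi_norm (c j) m).trans (norm_le_pi_norm c j)).trans hc
    calc ‖c j m‖ * ‖z‖ ^ (m : ℕ) ≤ 1 * 2 ^ (m : ℕ) := by gcongr
      _ = _ := one_mul _
  · rw [Complex.norm_exp]
    refine Real.exp_le_exp.2 ?_
    have h2 : (Complex.I * (l j : ℂ) * z).re = -(l j * z.im) := by simp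
    rw [h2]
    calc -(l j * z.im) ≤ |l j * z.im| := neg_le_abs _
      _ = |l j| * |z.im| := abs_mul _ _
      _ ≤ |l j| * 2 := mul_le_mul_of_nonneg_left ((Complex.abs_im_le_norm z).trans hz) (abs_nonneg _)

/-- linear independence -/
lemma F62_inj (hl : Function.Injective l) (c : ι → Fin D → ℂ)
    (h : ∀ z, ‖z‖ ≤ 1 / 4 → F62 l c z = 0) : c = 0 := by
  classical
  -- vanishes everywhere
  have h0 : F62 l c = fun _ => 0 := by
    have h1 : AnalyticOnNhd ℂ (F62 l c) Set.univ :=
      (Complex.analyticOnNhd_univ_iff_differentiable).2 (F62_diff l c)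
    have h2 : AnalyticOnNhd ℂ (fun _ : ℂ => (0:ℂ)) Set.univ := analyticOnNhd_const
    refine h1.eq_of_eventuallyEq h2 (z₀ := 0) ?_
    filter_upwards [Metric.ball_mem_nhds (0:ℂ) (by norm_num : (0:ℝ) < 1 / 4)] with z hz
    rw [Metric.mem_ball, dist_zero_right] at hz
    exact h z hz.le
  -- the data
  let P : ι → Polynomial ℂ := fun j => ∑ m : Fin D, Polynomial.monomial (m : ℕ) (c j m)
  let e : ι ↪ ℝ := ⟨l, hl⟩
  let a : Pool.Agent.EHD.Dat := Finsupp.embDomain e (Finsupp.equivFunOnFinite.symm P)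
  have hae : ∀ j, a (l j) = P j := by
    intro j
    have := Finsupp.embDomain_apply_self e (Finsupp.equivFunOnFinite.symm P) j
    simpa [a, e] using this
  have hev : ∀ z, Pool.Agent.EHD.ev a z = F62 l c z := by
    intro z
    have hs : a.support ⊆ Finset.univ.map e := by
      rw [Finsupp.support_embDomain]
      exact Finset.map_subset_map.2 (Finset.subset_univ _)
    rw [Pool.Agent.EHD.ev_sum a _ hs, Finset.sum_map]
    unfold F62
    refine Finset.sum_congr rfl fun j _ => ?_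
    show (a (l j)).eval z * Complex.exp (Complex.I * (l j : ℂ) * z) = _
    rw [hae]
    simp only [P, Polynomial.eval_finsetSum, Polynomial.eval_monomial]
  have ha : a = 0 := by
    by_contra hne
    obtain ⟨r, A, κ, hκ, hlow⟩ := Pool.Agent.EHD.ev_low 0 a hne
    obtain ⟨m, -, hm⟩ := hlow 0 (by simp [Pool.Agent.EHD.Reg])
    have hz : Pool.Agent.EHD.ev a = fun _ => 0 := by
      funext z; rw [hev, h0]
    rw [hz] at hm
    have h3 : iteratedDeriv m (fun _ : ℂ => (0:ℂ)) 0 = 0 := by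
      rcases Nat.eq_zero_or_pos m with h4 | h4
      · subst h4; simp
      · simp
    have h6 : ‖(0:ℂ)‖ = 0 := norm_zero
    rw [h3, h6] at hm
    have : 0 < κ / (2 + (0:ℝ)) ^ A := by positivity
    linarith
  funext j m
  have h5 : P j = 0 := by rw [← hae, ha]; rfl
  have h6 : (P j).coeff (m : ℕ) = c j m := by
    simp only [P, Polynomial.finsetSum_coeff, Polynomial.coeff_monomial]
    rw [Finset.sum_eq_single m]
    · simp
    · intro b _ hb
      rw [if_neg]
      exact fun hh => hb (Fin.ext hh)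
    · simp
  rw [← h6, h5]
  rfl

/-- uniform bound for the number of zeros in the disc of radius `1/4` -/
lemma F62_zeros (hl : Function.Injective l) :
    ∃ N : ℕ, ∀ c : ι → Fin D → ℂ, c ≠ 0 → ∀ S : Finset ℂ,
      (∀ a ∈ S, F62 l c a = 0 ∧ ‖a‖ ≤ 1 / 4) → S.card ≤ N := by
  by_contra hcon
  push Not at hcon
  -- normalised sequence
  have hnorm : ∀ N : ℕ, ∃ c : ι → Fin D → ℂ, ‖c‖ = 1 ∧ ∃ S : Finset ℂ,
      (∀ a ∈ S, F62 l c a = 0 ∧ ‖a‖ ≤ 1 / 4) ∧ N < S.card := by
    intro N
    obtain ⟨c, hc, S, hS, hN⟩ := hcon N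
    have hpos : 0 < ‖c‖ := norm_pos_iff.2 hc
    refine ⟨((‖c‖⁻¹ : ℝ) : ℂ) • c, ?_, S, fun a ha => ⟨?_, (hS a ha).2⟩, hN⟩
    · rw [norm_smul, Complex.norm_real, norm_inv, norm_norm, inv_mul_cancel₀ hpos.ne']
    · have h1 : F62 l (((‖c‖⁻¹ : ℝ) : ℂ) • c) a = ((‖c‖⁻¹ : ℝ) : ℂ) * F62 l c a := by
        unfold F62
        rw [Finset.mul_sum]
        refine Finset.sum_congr rfl fun j _ => ?_
        rw [← mul_assoc, Finset.mul_sum]
        congr 1
        refine Finset.sum_congr rfl fun m _ => ?_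
        simp only [Pi.smul_apply, smul_eq_mul]
        ring
      rw [h1, (hS a ha).1, mul_zero]
  choose c hc S hS hN using hnorm
  obtain ⟨c0, hc0, φ, hφ, hlim⟩ := (isCompact_sphere (0 : ι → Fin D → ℂ) 1).tendsto_subseq
    (x := c) (fun n => by simpa using hc n)
  have hc01 : ‖c0‖ = 1 := by simpa using hc0
  set B : ℝ := ∑ j, (∑ m : Fin D, (2:ℝ) ^ (m : ℕ)) * Real.exp (|l j| * 2) with hB
  have hBpos : 0 ≤ B := Finset.sum_nonneg fun j _ =>
    mul_nonneg (Finset.sum_nonneg fun m _ => by positivity) (Real.exp_pos _).le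
  have hzero : c0 = 0 := by
    refine F62_inj l hl c0 fun z hz => ?_
    have h1 : Tendsto (fun n => F62 l (c (φ n)) z) atTop (𝓝 (F62 l c0 z)) :=
      ((F62_cont l z).tendsto c0).comp hlim
    have h2 : Tendsto (fun n => F62 l (c (φ n)) z) atTop (𝓝 0) := by
      refine squeeze_zero_norm (a := fun n : ℕ => (1 / 2 : ℝ) ^ n * B) (fun n => ?_) ?_
      · have h3 := small_of_zeros (F62 l (c (φ n))) (F62_diff l _) 0 (1 / 4) B (by norm_num)
          (by norm_num) (fun w hw => F62_bound l _ (hc _).le w (by simpa using hw)) (S (φ n))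
          (fun a ha => ⟨(hS _ a ha).1, by simpa using (hS _ a ha).2⟩) z (by simpa using hz)
        refine h3.trans (mul_le_mul_of_nonneg_right ?_ hBpos)
        have h4 : (2 * (1 / 4) : ℝ) = 1 / 2 := by norm_num
        rw [h4]
        exact pow_le_pow_of_le_one (by norm_num) (by norm_num)
          ((hφ.id_le n).trans (hN (φ n)).le)
      · have := (tendsto_pow_atTop_nhds_zero_of_lt_one (by norm_num : (0:ℝ) ≤ 1 / 2)
          (by norm_num)).mul_const B
        simpa using this
    exact tendsto_nhds_unique h1 h2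
  rw [hzero, norm_zero] at hc01
  exact zero_ne_one hc01

end

/-- ROW N6 (boundedly many zeros in small discs, uniformly on the whole plane). -/
theorem zeros_disc {ι : Type*} [Fintype ι] (p : ι → Polynomial ℂ) (l : ι → ℝ)
    (hl : Function.Injective l) (hp : ∃ j, p j ≠ 0) :
    ∃ (ρ : ℝ) (N : ℕ), 0 < ρ ∧ ∀ (z0 : ℂ) (S : Finset ℂ), (∀ a ∈ S,
      ∑ j, (p j).eval a * Complex.exp (Complex.I * (l j : ℂ) * a) = 0 ∧ ‖a - z0‖ ≤ ρ) →
      S.card ≤ N := by
  classical
  set D : ℕ := (Finset.univ.sup fun j => (p j).natDegree) + 1 with hD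
  have hdeg : ∀ j, (p j).natDegree < D := fun j =>
    Nat.lt_succ_of_le (Finset.le_sup (f := fun j => (p j).natDegree) (Finset.mem_univ j))
  obtain ⟨N, hN⟩ := F62_zeros l (D := D) hl
  refine ⟨1 / 4, N, by norm_num, fun z0 S hS => ?_⟩
  let c : ι → Fin D → ℂ := fun j m =>
    (Polynomial.taylor z0 (p j)).coeff m * Complex.exp (Complex.I * (l j : ℂ) * z0)
  have hFc : ∀ w, F62 l c w =
      ∑ j, (p j).eval (w + z0) * Complex.exp (Complex.I * (l j : ℂ) * (w + z0)) := by
    intro w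
    unfold F62
    refine Finset.sum_congr rfl fun j _ => ?_
    have h1 : (p j).eval (w + z0) = ∑ m : Fin D, (Polynomial.taylor z0 (p j)).coeff m * w ^ (m : ℕ) := by
      rw [← Polynomial.taylor_eval, Polynomial.eval_eq_sum_range' (n := D)
        (by rw [Polynomial.natDegree_taylor]; exact hdeg j), Finset.sum_range]
    rw [h1, mul_add, Complex.exp_add, Finset.sum_mul, Finset.sum_mul]
    refine Finset.sum_congr rfl fun m _ => ?_
    simp only [c]
    ring
  have hc : c ≠ 0 := by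
    intro h0
    obtain ⟨j, hj⟩ := hp
    apply hj
    apply Polynomial.taylor_injective z0
    rw [map_zero]
    ext m
    rcases lt_or_ge m D with hm | hm
    · have h1 : c j ⟨m, hm⟩ = 0 := by rw [h0]; rfl
      simp only [c] at h1
      rcases mul_eq_zero.1 h1 with h2 | h2
      · simpa using h2
      · exact absurd h2 (Complex.exp_ne_zero _)
    · rw [Polynomial.coeff_eq_zero_of_natDegree_lt, Polynomial.coeff_zero]
      rw [Polynomial.natDegree_taylor]
      exact (hdeg j).trans_le hm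
  have h1 := hN c hc (S.image fun a => a - z0) (by
    intro b hb
    obtain ⟨a, ha, rfl⟩ := Finset.mem_image.1 hb
    refine ⟨?_, (hS a ha).2⟩
    rw [hFc, ← (hS a ha).1]
    simp)
  rwa [Finset.card_image_of_injective _ (sub_left_injective)] at h1

end Pool.Agent.Helper77.EHR.Q
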