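import Mathlib
import Pool.Agent.Helper77.EHR.Q.Defs
import Pool.Agent.Helper77.EHR.P.Elim

/-! MP_4f9849, row N1: elimination of one variable. -/

namespace Pool.Agent.Helper77.EHR.Q

variable {σ : Type} [Fintype σ] [DecidableEq σ]

/-- the variable `i` as the polynomial variable over the other ones -/
noncomputable def psiB (i : σ) :
    B σ ≃ₐ[Polynomial ℂ] Polynomial (MvPolynomial {j : σ // j ≠ i} (Polynomial ℂ)) :=
  (MvPolynomial.renameEquiv (Polynomial ℂ) (Equiv.optionSubtypeNe i).symm).trans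
    (MvPolynomial.optionEquivLeft (Polynomial ℂ) {j : σ // j ≠ i})

theorem psiB_natDegree (i : σ) (T : B σ) :
    (psiB i T).natDegree = MvPolynomial.degreeOf i T := by
  rw [psiB, AlgEquiv.trans_apply, MvPolynomial.natDegree_optionEquivLeft,
    MvPolynomial.renameEquiv_apply]
  have h : (Equiv.optionSubtypeNe i).symm i = none := by simp
  rw [← h]
  exact MvPolynomial.degreeOf_rename_of_injective (Equiv.injective _) i

/-- ROW N1 (elimination of the variable `w_i`; uses P/Elim.lean `elim`). -/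
theorem elimB (i : σ) (P Q : B σ) (hP : Irreducible P) (hPQ : ¬ P ∣ Q) :
    ∃ a b s : B σ, s ≠ 0 ∧ MvPolynomial.degreeOf i s = 0 ∧ a * P + b * Q = s := by
  by_cases h0 : MvPolynomial.degreeOf i P = 0
  · exact ⟨1, 0, P, hP.ne_zero, h0, by ring⟩
  have hP' : Irreducible (psiB i P) := (MulEquiv.irreducible_iff (psiB i)).2 hP
  have hPQ' : ¬ psiB i P ∣ psiB i Q := fun h => hPQ ((map_dvd_iff (psiB i)).1 h)
  obtain ⟨a, b, s, hs, h⟩ := Pool.Agent.Helper77.EHR.P.elim (psiB i P) (psiB i Q) hP' hPQ'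
    (by rw [psiB_natDegree]; exact Nat.pos_of_ne_zero h0)
  refine ⟨(psiB i).symm a, (psiB i).symm b, (psiB i).symm (Polynomial.C s), ?_, ?_, ?_⟩
  · intro h1
    have h2 : Polynomial.C s = 0 := by
      rw [← (psiB i).apply_symm_apply (Polynomial.C s), h1, map_zero]
    exact hs (Polynomial.C_eq_zero.1 h2)
  · rw [← psiB_natDegree, AlgEquiv.apply_symm_apply, Polynomial.natDegree_C]
  · apply (psiB i).injective
    rw [map_add, map_mul, map_mul, AlgEquiv.apply_symm_apply, AlgEquiv.apply_symm_apply,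
      AlgEquiv.apply_symm_apply, h]

end Pool.Agent.Helper77.EHR.Q
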