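import Mathlib
import Pool.Agent.Helper77.EHR.Q.Defs

/-! MP_4f9849, all exponential polynomials, row N4: from a family without common factor to
finitely many coprime pairs. -/

namespace Pool.Agent.Helper77.EHR.Q

open Pool.Agent.Helper77.EHR.P (A ev Ind)

/-- the identification of the polynomials in `w_i` (all of them) with `A r` -/
theorem ev_phi {r : ℕ} (ω0 : ℝ) (ω : Fin r → ℝ) (z : ℂ) (g : MvPolynomial (Option (Fin r)) ℂ) :
    ev ω0 ω (fun _ => 0) z (MvPolynomial.optionEquivRight ℂ (Fin r) g) = evC (nu ω0 ω) z g := by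
  have h : ((ev ω0 ω (fun _ => 0) z).comp
      ((MvPolynomial.optionEquivRight ℂ (Fin r) : MvPolynomial (Option (Fin r)) ℂ →ₐ[ℂ] A r) :
        MvPolynomial (Option (Fin r)) ℂ →+* A r)) = evC (nu ω0 ω) z := by
    apply MvPolynomial.ringHom_ext
    · intro c
      simp [ev, evC]
    · intro i
      cases i with
      | none => simp [ev, evC, nu]
      | some j => simp [ev, evC, nu]
  exact congrArg (fun f => f g) h

/-- a polynomial which is not constant contains a variable -/
theorem exists_degreeOf {τ : Type*} [Fintype τ] {p : MvPolynomial τ ℂ} (hp : Irreducible p) :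
    ∃ i, MvPolynomial.degreeOf i p ≠ 0 := by
  by_contra hcon
  push Not at hcon
  have h1 : p.totalDegree = 0 := by
    rw [MvPolynomial.totalDegree_eq_zero_iff]
    intro m hm i
    have h2 : m i ≤ MvPolynomial.degreeOf i p := by
      classical
      rw [MvPolynomial.degreeOf_eq_sup]
      exact Finset.le_sup (f := fun m : τ →₀ ℕ => m i) hm
    rw [hcon i] at h2
    exact Nat.le_zero.1 h2
  rw [MvPolynomial.totalDegree_eq_zero_iff_eq_C] at h1
  rw [h1] at hp
  by_cases h0 : p.coeff 0 = 0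
  · rw [h0, MvPolynomial.C_0] at hp
    exact hp.ne_zero rfl
  · exact hp.not_isUnit ((isUnit_iff_ne_zero.2 h0).map MvPolynomial.C)

/-- one of the factors of a small product is small -/
theorem exists_small_factor (s : Multiset ℝ) {a δ : ℝ} (ha : 1 ≤ a) (hδ : 0 < δ) (hδ1 : δ ≤ 1)
    (h0 : ∀ x ∈ s, 0 ≤ x) (hs : s ≠ 0) (h : s.prod ≤ a * δ) :
    ∃ x ∈ s, x ≤ a * δ ^ ((1 : ℝ) / (s.card + 1)) := by
  by_contra hcon
  push Not at hcon
  set e : ℝ := (1 : ℝ) / (s.card + 1) with he
  have hbase : 0 < a * δ ^ e := mul_pos (by linarith) (Real.rpow_pos_of_pos hδ _)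
  have key : ∀ t : Multiset ℝ, (∀ x ∈ t, a * δ ^ e < x) → t ≠ 0 → (a * δ ^ e) ^ t.card < t.prod := by
    intro t
    induction t using Multiset.induction_on with
    | empty => intro _ h; exact absurd rfl h
    | cons x t ih =>
      intro hx _
      rw [Multiset.card_cons, Multiset.prod_cons, pow_succ']
      by_cases ht : t = 0
      · subst ht
        simpa using hx x (Multiset.mem_cons_self _ _)
      · have h1 := ih (fun y hy => hx y (Multiset.mem_cons_of_mem hy)) ht
        exact mul_lt_mul'' (hx x (Multiset.mem_cons_self _ _)) h1 hbase.le (pow_nonneg hbase.le _)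
  have h1 := key s hcon hs
  have hn : 1 ≤ s.card := Multiset.card_pos.2 hs
  have h2 : a * δ ≤ (a * δ ^ e) ^ s.card := by
    rw [mul_pow]
    refine mul_le_mul (le_self_pow₀ ha (by omega)) ?_ hδ.le (by positivity)
    rw [← Real.rpow_natCast, ← Real.rpow_mul hδ.le]
    have h3 : e * (s.card : ℝ) ≤ 1 := by
      rw [he, one_div, inv_mul_le_iff₀ (by positivity)]
      linarith
    calc δ = δ ^ (1 : ℝ) := (Real.rpow_one _).symm
      _ ≤ δ ^ (e * (s.card : ℝ)) := Real.rpow_le_rpow_of_exponent_ge hδ hδ1 h3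
  linarith

/-- ROW N4 (from a family without common factor to finitely many coprime pairs). -/
theorem family {r : ℕ} (ω0 : ℝ) (ω : Fin r → ℝ)
    (g : Option (Fin r) → MvPolynomial (Option (Fin r)) ℂ) (hg : ∀ i, g i ≠ 0)
    (hdeg : ∀ i, MvPolynomial.degreeOf i (g i) = 0) (H : ℝ) :
    ∃ (D : Finset (A r × A r)) (e K : ℝ), 0 < e ∧ 0 < K ∧ (∀ p ∈ D, Irreducible p.1 ∧ ¬ p.1 ∣ p.2) ∧
      ∀ (z : ℂ) (δ : ℝ), |z.im| ≤ H → 0 < δ → δ ≤ 1 → (∀ i, ‖evC (nu ω0 ω) z (g i)‖ ≤ δ) →
        1 ≤ K * δ ∨ ∃ p ∈ D, ‖ev ω0 ω (fun _ => 0) z p.1‖ ≤ K * δ ^ e ∧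
          ‖ev ω0 ω (fun _ => 0) z p.2‖ ≤ K * δ ^ e := by
  classical
  set φ := MvPolynomial.optionEquivRight ℂ (Fin r) with hφ
  have hφ0 : φ (g none) ≠ 0 := by
    intro h
    exact hg none (φ.injective (by rw [h, map_zero]))
  obtain ⟨s, hs, u, hu⟩ := UniqueFactorizationMonoid.exists_prime_factors (φ (g none)) hφ0
  -- the unit is a constant
  have hunit : IsUnit (φ.symm (u : A r)) := u.isUnit.map φ.symm
  obtain ⟨c, hc, hcu⟩ := MvPolynomial.isUnit_iff_eq_C_of_isReduced.1 hunit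
  have hc0 : c ≠ 0 := hc.ne_zero
  have hev : ∀ z, ev ω0 ω (fun _ => 0) z (u : A r) = c := by
    intro z
    have h1 : (u : A r) = φ (MvPolynomial.C c) := by rw [← hcu, AlgEquiv.apply_symm_apply]
    rw [h1, hφ, ev_phi]
    simp [evC]
  -- a variable of each factor
  have hvar : ∀ a : A r, ∃ i : Option (Fin r), Prime a → MvPolynomial.degreeOf i (φ.symm a) ≠ 0 := by
    intro a
    by_cases ha : Prime a
    · have h1 : Irreducible (φ.symm a) := (MulEquiv.irreducible_iff φ.symm).2 ha.irreducible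
      obtain ⟨i, hi⟩ := exists_degreeOf h1
      exact ⟨i, fun _ => hi⟩
    · exact ⟨none, fun h => absurd h ha⟩
  choose i hi using hvar
  set K : ℝ := max 1 ‖c‖⁻¹ with hK
  have hK1 : 1 ≤ K := le_max_left _ _
  have hKc : ‖c‖⁻¹ ≤ K := le_max_right _ _
  have hcn : 0 < ‖c‖ := norm_pos_iff.2 hc0
  refine ⟨s.toFinset.image fun a => (a, φ (g (i a))), (1 : ℝ) / (s.card + 1), K, by positivity,
    by linarith, ?_, ?_⟩
  · intro p hp
    obtain ⟨a, ha, rfl⟩ := Finset.mem_image.1 hp
    have hpa := hs a (Multiset.mem_toFinset.1 ha)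
    refine ⟨hpa.irreducible, fun hdvd => ?_⟩
    obtain ⟨d, hd⟩ := hdvd
    have h1 : g (i a) = φ.symm a * φ.symm d := by
      rw [← map_mul, ← hd, AlgEquiv.symm_apply_apply]
    have hne : φ.symm a * φ.symm d ≠ 0 := by rw [← h1]; exact hg _
    have h2 := MvPolynomial.degreeOf_mul_eq (n := i a) (left_ne_zero_of_mul hne) (right_ne_zero_of_mul hne)
    rw [← h1, hdeg] at h2
    exact hi a hpa (by omega)
  · intro z δ _ hδ hδ1 hz
    have h1 : ‖ev ω0 ω (fun _ => 0) z s.prod‖ ≤ K * δ := by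
      have h2 := hz none
      rw [← ev_phi, ← hφ, ← hu, map_mul, hev, norm_mul] at h2
      calc ‖ev ω0 ω (fun _ => 0) z s.prod‖ = ‖c‖⁻¹ * (‖ev ω0 ω (fun _ => 0) z s.prod‖ * ‖c‖) := by
            field_simp
        _ ≤ K * δ := mul_le_mul hKc h2 (by positivity) (by linarith)
    by_cases hs0 : s = 0
    · left
      rw [hs0, Multiset.prod_zero, map_one, norm_one] at h1
      exact h1
    · right
      set m : Multiset ℝ := s.map fun a => ‖ev ω0 ω (fun _ => 0) z a‖ with hm
      have hmp : m.prod = ‖ev ω0 ω (fun _ => 0) z s.prod‖ := by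
        have hgen : ∀ t : Multiset (A r), (t.map fun a => ‖ev ω0 ω (fun _ => 0) z a‖).prod =
            ‖ev ω0 ω (fun _ => 0) z t.prod‖ := by
          intro t
          induction t using Multiset.induction_on with
          | empty => simp
          | cons x t ih =>
            rw [Multiset.map_cons, Multiset.prod_cons, Multiset.prod_cons, ih, map_mul, norm_mul]
        exact hgen s
      have hmc : m.card = s.card := Multiset.card_map _ _
      obtain ⟨x, hx, hx1⟩ := exists_small_factor m hK1 hδ hδ1 (by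
        intro x hx
        obtain ⟨a, _, rfl⟩ := Multiset.mem_map.1 hx
        exact norm_nonneg _) (by
        intro h
        apply hs0
        rw [← Multiset.card_eq_zero, ← hmc, h, Multiset.card_zero]) (by rw [hmp]; exact h1)
      obtain ⟨a, ha, rfl⟩ := Multiset.mem_map.1 hx
      rw [hmc] at hx1
      refine ⟨(a, φ (g (i a))), Finset.mem_image.2 ⟨a, Multiset.mem_toFinset.2 ha, rfl⟩, hx1, ?_⟩
      show ‖ev ω0 ω (fun _ => 0) z (φ (g (i a)))‖ ≤ _
      rw [hφ, ev_phi]
      have he1 : (1 : ℝ) / (s.card + 1) ≤ 1 := by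
        rw [div_le_one (by positivity)]
        linarith [(Nat.cast_nonneg s.card : (0 : ℝ) ≤ (s.card : ℝ))]
      calc ‖evC (nu ω0 ω) z (g (i a))‖ ≤ δ := hz _
        _ = δ ^ (1 : ℝ) := (Real.rpow_one _).symm
        _ ≤ δ ^ ((1 : ℝ) / (s.card + 1)) := Real.rpow_le_rpow_of_exponent_ge hδ hδ1 he1
        _ ≤ K * δ ^ ((1 : ℝ) / (s.card + 1)) := le_mul_of_one_le_left (Real.rpow_nonneg hδ.le _) hK1

end Pool.Agent.Helper77.EHR.Q
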