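import Mathlib
import Pool.Agent.Helper77.EHR.Q.Defs

/-! MP_4f9849, row N5: location of the zeros of an exponential polynomial with real frequencies. -/

namespace Pool.Agent.Helper77.EHR.Q

lemma upper53 (p : Polynomial ℂ) : ∃ C : ℝ, 0 ≤ C ∧ ∀ z : ℂ, 1 ≤ ‖z‖ →
    ‖p.eval z‖ ≤ C * ‖z‖ ^ p.natDegree := by
  refine ⟨∑ i ∈ Finset.range (p.natDegree + 1), ‖p.coeff i‖, Finset.sum_nonneg fun _ _ => norm_nonneg _,
    fun z hz => ?_⟩
  rw [Polynomial.eval_eq_sum_range, Finset.sum_mul]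
  refine (norm_sum_le _ _).trans (Finset.sum_le_sum fun i hi => ?_)
  rw [norm_mul, norm_pow]
  exact mul_le_mul_of_nonneg_left (pow_le_pow_right₀ hz (by
    rw [Finset.mem_range] at hi
    omega)) (norm_nonneg _)

lemma lower53 (p : Polynomial ℂ) (hp : p ≠ 0) : ∃ c X : ℝ, 0 < c ∧ 1 ≤ X ∧ ∀ z : ℂ, X ≤ ‖z‖ →
    c * ‖z‖ ^ p.natDegree ≤ ‖p.eval z‖ := by
  have hl : 0 < ‖p.leadingCoeff‖ := norm_pos_iff.2 (Polynomial.leadingCoeff_ne_zero.2 hp)
  rcases Nat.eq_zero_or_pos p.natDegree with h0 | h0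
  · refine ⟨‖p.leadingCoeff‖, 1, hl, le_rfl, fun z _ => ?_⟩
    rw [Polynomial.eq_C_of_natDegree_eq_zero h0]
    simp
  · obtain ⟨C, hC, hU⟩ := upper53 p.eraseLead
    refine ⟨‖p.leadingCoeff‖ / 2, max 1 (2 * C / ‖p.leadingCoeff‖), by positivity, le_max_left _ _,
      fun z hz => ?_⟩
    have hz1 : 1 ≤ ‖z‖ := (le_max_left _ _).trans hz
    have hz2 : 2 * C / ‖p.leadingCoeff‖ ≤ ‖z‖ := (le_max_right _ _).trans hz
    have h1 : p.eval z = p.eraseLead.eval z + p.leadingCoeff * z ^ p.natDegree := by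
      conv_lhs => rw [← p.eraseLead_add_C_mul_X_pow]
      rw [Polynomial.eval_add, Polynomial.eval_mul, Polynomial.eval_C, Polynomial.eval_pow,
        Polynomial.eval_X]
    have h2 : ‖p.eraseLead.eval z‖ ≤ C * ‖z‖ ^ (p.natDegree - 1) :=
      (hU z hz1).trans (mul_le_mul_of_nonneg_left (pow_le_pow_right₀ hz1
        (Polynomial.eraseLead_natDegree_le p)) hC)
    have h3 : C * ‖z‖ ^ (p.natDegree - 1) ≤ ‖p.leadingCoeff‖ / 2 * ‖z‖ ^ p.natDegree := by
      have h4 : ‖z‖ ^ p.natDegree = ‖z‖ ^ (p.natDegree - 1) * ‖z‖ := by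
        rw [← pow_succ]
        congr 1
        omega
      rw [h4]
      have h5 : C ≤ ‖p.leadingCoeff‖ / 2 * ‖z‖ := by
        rw [div_le_iff₀ hl] at hz2
        linarith
      calc C * ‖z‖ ^ (p.natDegree - 1) ≤ ‖p.leadingCoeff‖ / 2 * ‖z‖ * ‖z‖ ^ (p.natDegree - 1) :=
            mul_le_mul_of_nonneg_right h5 (by positivity)
        _ = _ := by ring
    have h6 : ‖p.leadingCoeff * z ^ p.natDegree‖ = ‖p.leadingCoeff‖ * ‖z‖ ^ p.natDegree := by
      rw [norm_mul, norm_pow]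
    have h7 : ‖p.leadingCoeff * z ^ p.natDegree‖ ≤ ‖p.eval z‖ + ‖p.eraseLead.eval z‖ := by
      have : p.leadingCoeff * z ^ p.natDegree = p.eval z - p.eraseLead.eval z := by
        rw [h1]; ring
      rw [this]
      exact norm_sub_le _ _
    rw [h6] at h7
    linarith

lemma log53 (p : Polynomial ℂ) (hp : p ≠ 0) : ∃ A X : ℝ, 0 ≤ A ∧ 1 ≤ X ∧ ∀ z : ℂ, X ≤ ‖z‖ →
    0 < ‖p.eval z‖ ∧ |Real.log ‖p.eval z‖ - p.natDegree * Real.log ‖z‖| ≤ A := by
  obtain ⟨C, hC, hU⟩ := upper53 p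
  obtain ⟨c, X, hc, hX, hL⟩ := lower53 p hp
  refine ⟨|Real.log (C + 1)| + |Real.log c|, X, by positivity, hX, fun z hz => ?_⟩
  have hz1 : 1 ≤ ‖z‖ := hX.trans hz
  have hz0 : 0 < ‖z‖ := by linarith
  have hpw : 0 < ‖z‖ ^ p.natDegree := by positivity
  have h1 := hL z hz
  have h2 := hU z hz1
  have h3 : 0 < ‖p.eval z‖ := lt_of_lt_of_le (by positivity) h1
  refine ⟨h3, ?_⟩
  have h4 : Real.log ‖p.eval z‖ ≤ Real.log (C + 1) + p.natDegree * Real.log ‖z‖ := by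
    have h5 : ‖p.eval z‖ ≤ (C + 1) * ‖z‖ ^ p.natDegree :=
      h2.trans (mul_le_mul_of_nonneg_right (by linarith) hpw.le)
    have h6 := Real.log_le_log h3 h5
    rwa [Real.log_mul (by positivity) hpw.ne', Real.log_pow] at h6
  have h7 : Real.log c + p.natDegree * Real.log ‖z‖ ≤ Real.log ‖p.eval z‖ := by
    have h6 := Real.log_le_log (by positivity) h1
    rwa [Real.log_mul hc.ne' hpw.ne', Real.log_pow] at h6
  rw [abs_le]
  constructor
  · have := neg_abs_le (Real.log c)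
    have := abs_nonneg (Real.log (C + 1))
    linarith
  · have := le_abs_self (Real.log (C + 1))
    have := abs_nonneg (Real.log c)
    linarith

lemma two_terms53 {ι : Type*} [Fintype ι] (u : ι → ℂ) (j0 : ι) (hu : ∀ j, u j ≠ 0)
    (h : ∑ j, u j = 0) : ∃ j k, k ≠ j ∧ ‖u k‖ ≤ ‖u j‖ ∧ ‖u j‖ ≤ Fintype.card ι * ‖u k‖ := by
  classical
  have : Nonempty ι := ⟨j0⟩
  obtain ⟨j, hj⟩ := Finite.exists_max fun j => ‖u j‖
  by_contra hcon
  push Not at hcon
  have hlt : ∀ k, k ≠ j → (Fintype.card ι : ℝ) * ‖u k‖ < ‖u j‖ := fun k hk => hcon j k hk (hj k)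
  have h1 : u j = -∑ k ∈ Finset.univ.erase j, u k := by
    rw [← Finset.add_sum_erase _ _ (Finset.mem_univ j)] at h
    exact eq_neg_of_add_eq_zero_left h
  have h2 : ‖u j‖ ≤ ∑ k ∈ Finset.univ.erase j, ‖u k‖ := by
    conv_lhs => rw [h1]
    rw [norm_neg]
    exact norm_sum_le _ _
  have hn : 0 < Fintype.card ι := Fintype.card_pos
  have h3 : (Fintype.card ι : ℝ) * ‖u j‖ ≤ ((Fintype.card ι : ℝ) - 1) * ‖u j‖ := by
    calc (Fintype.card ι : ℝ) * ‖u j‖ ≤ (Fintype.card ι : ℝ) * ∑ k ∈ Finset.univ.erase j, ‖u k‖ :=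
          mul_le_mul_of_nonneg_left h2 (by positivity)
      _ = ∑ k ∈ Finset.univ.erase j, (Fintype.card ι : ℝ) * ‖u k‖ := Finset.mul_sum _ _ _
      _ ≤ ∑ _k ∈ Finset.univ.erase j, ‖u j‖ :=
          Finset.sum_le_sum fun k hk => (hlt k (Finset.ne_of_mem_erase hk)).le
      _ = ((Fintype.card ι : ℝ) - 1) * ‖u j‖ := by
          rw [Finset.sum_const, Finset.card_erase_of_mem (Finset.mem_univ j), Finset.card_univ,
            nsmul_eq_mul, Nat.cast_sub hn, Nat.cast_one]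
  have h4 : 0 < ‖u j‖ := norm_pos_iff.2 (hu j)
  linarith

/-- ROW N5 (location of the zeros: two terms are comparable). -/
theorem zero_loc {ι : Type*} [Fintype ι] (p : ι → Polynomial ℂ) (l : ι → ℝ)
    (hl : Function.Injective l) (hp : ∀ j, p j ≠ 0) (j0 : ι) :
    ∃ (T : Finset ℝ) (H X : ℝ), 0 ≤ H ∧ 1 ≤ X ∧ ∀ z : ℂ, X ≤ ‖z‖ →
      ∑ j, (p j).eval z * Complex.exp (Complex.I * (l j : ℂ) * z) = 0 →
        ∃ t ∈ T, ∃ sg : ℝ, (sg = 1 ∨ sg = -1) ∧ z ∈ Str sg t H ∧ ‖z‖ ≤ 2 * (sg * z.re) := by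
  classical
  choose A X hA hX hlog using fun j => log53 (p j) (hp j)
  set A0 : ℝ := ∑ j, A j with hA0
  have hA0j : ∀ j, A j ≤ A0 := fun j =>
    Finset.single_le_sum (f := A) (fun i _ => hA i) (Finset.mem_univ j)
  set X0 : ℝ := ∑ j, X j with hX0
  have hX0j : ∀ j, X j ≤ X0 := fun j =>
    Finset.single_le_sum (f := X) (fun i _ => zero_le_one.trans (hX i)) (Finset.mem_univ j)
  set M : ℝ := ∑ q : ι × ι, |l q.1 - l q.2|⁻¹ with hM
  have hMq : ∀ a b, |l a - l b|⁻¹ ≤ M := fun a b =>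
    Finset.single_le_sum (f := fun q : ι × ι => |l q.1 - l q.2|⁻¹) (fun i _ => by positivity)
      (Finset.mem_univ (a, b))
  set sl : ι × ι → ℝ := fun q => (((p q.1).natDegree : ℝ) - (p q.2).natDegree) / (l q.1 - l q.2) with hsl
  set τ : ℝ := ∑ q : ι × ι, |sl q| with hτ
  have hτq : ∀ q, |sl q| ≤ τ := fun q =>
    Finset.single_le_sum (f := fun q : ι × ι => |sl q|) (fun i _ => abs_nonneg _) (Finset.mem_univ q)
  have hτ0 : 0 ≤ τ := Finset.sum_nonneg fun _ _ => abs_nonneg _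
  have hM0 : 0 ≤ M := Finset.sum_nonneg fun _ _ => by positivity
  have hA00 : 0 ≤ A0 := Finset.sum_nonneg fun i _ => hA i
  have hcard : 1 ≤ (Fintype.card ι : ℝ) := by
    have : Nonempty ι := ⟨j0⟩
    exact_mod_cast Fintype.card_pos (α := ι)
  have hlc : 0 ≤ Real.log (Fintype.card ι) := Real.log_nonneg hcard
  set B : ℝ := (2 * A0 + Real.log (Fintype.card ι)) * M with hB
  have hB0 : 0 ≤ B := by positivity
  -- the threshold for the logarithm
  have hev : ∀ᶠ r : ℝ in Filter.atTop, ‖Real.log r‖ ≤ 1 / (4 * (τ + 1)) * ‖id r‖ :=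
    Real.isLittleO_log_id_atTop.bound (by positivity)
  obtain ⟨X1, hX1⟩ := Filter.eventually_atTop.1 hev
  refine ⟨Finset.univ.image sl, B + τ * Real.log 2, max 2 (max X0 (max X1 (4 * B))),
    add_nonneg hB0 (mul_nonneg hτ0 (Real.log_nonneg (by norm_num))),
    le_trans (by norm_num) (le_max_left _ _), fun z hz hsum => ?_⟩
  have hz2 : 2 ≤ ‖z‖ := (le_max_left _ _).trans hz
  have hzX0 : X0 ≤ ‖z‖ := ((le_max_left _ _).trans (le_max_right _ _)).trans hz
  have hzX1 : X1 ≤ ‖z‖ :=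
    ((le_max_left _ _).trans ((le_max_right _ _).trans (le_max_right _ _))).trans hz
  have hzB : 4 * B ≤ ‖z‖ :=
    ((le_max_right _ _).trans ((le_max_right _ _).trans (le_max_right _ _))).trans hz
  have hz0 : 0 < ‖z‖ := by linarith
  have hL0 : 0 ≤ Real.log ‖z‖ := Real.log_nonneg (by linarith)
  have hj : ∀ j, 0 < ‖(p j).eval z‖ ∧
      |Real.log ‖(p j).eval z‖ - (p j).natDegree * Real.log ‖z‖| ≤ A0 := fun j =>
    ⟨(hlog j z ((hX0j j).trans hzX0)).1, ((hlog j z ((hX0j j).trans hzX0)).2).trans (hA0j j)⟩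
  have hnorm : ∀ j, ‖(p j).eval z * Complex.exp (Complex.I * (l j : ℂ) * z)‖ =
      ‖(p j).eval z‖ * Real.exp (-(l j * z.im)) := by
    intro j
    rw [norm_mul, Complex.norm_exp]
    congr 2
    simp [Complex.mul_re, Complex.mul_im]
  obtain ⟨j, k, hkj, h1, h2⟩ := two_terms53
    (fun j => (p j).eval z * Complex.exp (Complex.I * (l j : ℂ) * z)) j0
    (fun j => mul_ne_zero (norm_pos_iff.1 (hj j).1) (Complex.exp_ne_zero _)) hsum
  simp only [hnorm] at h1 h2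
  have e1 : ∀ i, Real.log (‖(p i).eval z‖ * Real.exp (-(l i * z.im))) =
      Real.log ‖(p i).eval z‖ - l i * z.im := by
    intro i
    rw [Real.log_mul (hj i).1.ne' (Real.exp_pos _).ne', Real.log_exp]
    ring
  have g1 := Real.log_le_log (mul_pos (hj k).1 (Real.exp_pos _)) h1
  have g2 := Real.log_le_log (mul_pos (hj j).1 (Real.exp_pos _)) h2
  rw [Real.log_mul (by linarith) (mul_pos (hj k).1 (Real.exp_pos _)).ne', e1, e1] at g2
  rw [e1, e1] at g1
  have a1 := abs_le.1 (hj j).2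
  have a2 := abs_le.1 (hj k).2
  have hne : l j - l k ≠ 0 := sub_ne_zero.2 fun h => hkj (hl h).symm
  have key : |(l j - l k) * z.im - (((p j).natDegree : ℝ) - (p k).natDegree) * Real.log ‖z‖| ≤
      2 * A0 + Real.log (Fintype.card ι) := by
    rw [abs_le]
    constructor <;> nlinarith [a1.1, a1.2, a2.1, a2.2, g1, g2]
  have key2 : |z.im - sl (j, k) * Real.log ‖z‖| ≤ B := by
    have h3 : z.im - sl (j, k) * Real.log ‖z‖ = (l j - l k)⁻¹ *
        ((l j - l k) * z.im - (((p j).natDegree : ℝ) - (p k).natDegree) * Real.log ‖z‖) := by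
      simp only [hsl]
      field_simp
    rw [h3, abs_mul, abs_inv, mul_comm]
    exact mul_le_mul key (hMq j k) (by positivity) (by positivity)
  have hlogz : τ * Real.log ‖z‖ ≤ ‖z‖ / 4 := by
    have h3 := hX1 ‖z‖ hzX1
    rw [Real.norm_of_nonneg hL0, id, Real.norm_of_nonneg hz0.le] at h3
    calc τ * Real.log ‖z‖ ≤ τ * (1 / (4 * (τ + 1)) * ‖z‖) := mul_le_mul_of_nonneg_left h3 hτ0
      _ = τ / (τ + 1) * (‖z‖ / 4) := by
          field_simp
      _ ≤ 1 * (‖z‖ / 4) := mul_le_mul_of_nonneg_right (by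
          rw [div_le_one (by linarith)]
          linarith) (by positivity)
      _ = ‖z‖ / 4 := one_mul _
  have hy : |z.im| ≤ ‖z‖ / 2 := by
    have h3 : |z.im| ≤ |z.im - sl (j, k) * Real.log ‖z‖| + |sl (j, k) * Real.log ‖z‖| := by
      have := abs_add_le (z.im - sl (j, k) * Real.log ‖z‖) (sl (j, k) * Real.log ‖z‖)
      simpa using this
    have h4 : |sl (j, k) * Real.log ‖z‖| ≤ τ * Real.log ‖z‖ := by
      rw [abs_mul, abs_of_nonneg hL0]
      exact mul_le_mul_of_nonneg_right (hτq _) hL0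
    linarith
  have hx : ‖z‖ ≤ 2 * |z.re| := by
    have := Complex.norm_le_abs_re_add_abs_im z
    linarith
  obtain ⟨sg, hsg, hsx⟩ : ∃ sg : ℝ, (sg = 1 ∨ sg = -1) ∧ sg * z.re = |z.re| := by
    rcases le_total 0 z.re with h | h
    · exact ⟨1, Or.inl rfl, by rw [one_mul, abs_of_nonneg h]⟩
    · exact ⟨-1, Or.inr rfl, by rw [neg_one_mul, abs_of_nonpos h]⟩
  refine ⟨sl (j, k), Finset.mem_image_of_mem _ (Finset.mem_univ _), sg, hsg, ⟨?_, ?_⟩, by rw [hsx]; exact hx⟩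
  · rw [hsx]
    linarith
  · rw [hsx]
    have hx0 : 0 < |z.re| := by linarith
    have h3 : Real.log |z.re| ≤ Real.log ‖z‖ := Real.log_le_log hx0 (Complex.abs_re_le_norm z)
    have h4 : Real.log ‖z‖ ≤ Real.log 2 + Real.log |z.re| := by
      rw [← Real.log_mul (by norm_num) hx0.ne']
      exact Real.log_le_log hz0 hx
    have h5 : z.im - sl (j, k) * Real.log |z.re| = (z.im - sl (j, k) * Real.log ‖z‖) +
        sl (j, k) * (Real.log ‖z‖ - Real.log |z.re|) := by ring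
    rw [h5]
    refine (abs_add_le _ _).trans (add_le_add key2 ?_)
    rw [abs_mul, abs_of_nonneg (a := Real.log ‖z‖ - Real.log |z.re|) (by linarith)]
    exact mul_le_mul (hτq _) (by linarith) (by linarith) hτ0

end Pool.Agent.Helper77.EHR.Q
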