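import Mathlib
import Pool.Agent.Helper77.EHR.Q.Defs

/-! MP_4f9849, all exponential polynomials, row N3: polynomial growth in logarithmic strips. -/

namespace Pool.Agent.Helper77.EHR.Q

/-- polynomial growth in the strip. -/
def Gr87 (sg t H : ℝ) (f : ℂ → ℂ) : Prop :=
  ∃ M K : ℝ, 0 ≤ M ∧ 0 ≤ K ∧ ∀ z ∈ Str sg t H, ‖f z‖ ≤ K * (sg * z.re) ^ M

variable {sg t H : ℝ} {f g : ℂ → ℂ}

lemma Gr87.const (c : ℂ) : Gr87 sg t H (fun _ => c) :=
  ⟨0, ‖c‖, le_rfl, norm_nonneg _, fun z _ => by simp⟩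

lemma Gr87.add (hf : Gr87 sg t H f) (hg : Gr87 sg t H g) : Gr87 sg t H (fun z => f z + g z) := by
  obtain ⟨M, K, hM, hK, h⟩ := hf
  obtain ⟨M', K', hM', hK', h'⟩ := hg
  refine ⟨M + M', K + K', by positivity, by positivity, fun z hz => ?_⟩
  have hx : 1 ≤ sg * z.re := hz.1
  have h1 : (sg * z.re) ^ M ≤ (sg * z.re) ^ (M + M') :=
    Real.rpow_le_rpow_of_exponent_le hx (by linarith)
  have h2 : (sg * z.re) ^ M' ≤ (sg * z.re) ^ (M + M') :=
    Real.rpow_le_rpow_of_exponent_le hx (by linarith)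
  calc ‖f z + g z‖ ≤ ‖f z‖ + ‖g z‖ := norm_add_le _ _
    _ ≤ K * (sg * z.re) ^ M + K' * (sg * z.re) ^ M' := add_le_add (h z hz) (h' z hz)
    _ ≤ K * (sg * z.re) ^ (M + M') + K' * (sg * z.re) ^ (M + M') := by gcongr
    _ = _ := by ring

lemma Gr87.mul (hf : Gr87 sg t H f) (hg : Gr87 sg t H g) : Gr87 sg t H (fun z => f z * g z) := by
  obtain ⟨M, K, hM, hK, h⟩ := hf
  obtain ⟨M', K', hM', hK', h'⟩ := hg
  refine ⟨M + M', K * K', by positivity, by positivity, fun z hz => ?_⟩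
  have hx : 1 ≤ sg * z.re := hz.1
  have hx0 : 0 < sg * z.re := by linarith
  calc ‖f z * g z‖ = ‖f z‖ * ‖g z‖ := norm_mul _ _
    _ ≤ (K * (sg * z.re) ^ M) * (K' * (sg * z.re) ^ M') :=
        mul_le_mul (h z hz) (h' z hz) (norm_nonneg _) (by positivity)
    _ = _ := by rw [Real.rpow_add hx0]; ring

lemma im_le87 {z : ℂ} (hz : z ∈ Str sg t H) :
    |z.im| ≤ |t| * Real.log (sg * z.re) + |H| := by
  have hx : 1 ≤ sg * z.re := hz.1
  have hl : 0 ≤ Real.log (sg * z.re) := Real.log_nonneg hx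
  calc |z.im| = |(z.im - t * Real.log (sg * z.re)) + t * Real.log (sg * z.re)| := by ring_nf
    _ ≤ |z.im - t * Real.log (sg * z.re)| + |t * Real.log (sg * z.re)| := abs_add_le _ _
    _ ≤ |H| + |t| * Real.log (sg * z.re) := by
        rw [abs_mul, abs_of_nonneg hl]
        exact add_le_add (hz.2.trans (le_abs_self H)) le_rfl
    _ = _ := by ring

lemma Gr87.id (hsg : sg = 1 ∨ sg = -1) : Gr87 sg t H (fun z => z) := by
  refine ⟨1, 1 + |t| + |H|, zero_le_one, by positivity, fun z hz => ?_⟩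
  have hx : 1 ≤ sg * z.re := hz.1
  rw [Real.rpow_one]
  have h1 : |z.re| = sg * z.re := by
    rcases hsg with rfl | rfl
    · rw [one_mul] at hx ⊢; exact abs_of_nonneg (by linarith)
    · rw [neg_one_mul] at hx ⊢; exact abs_of_nonpos (by linarith)
  have h2 := im_le87 hz
  have h3 : Real.log (sg * z.re) ≤ sg * z.re := by
    have := Real.log_le_sub_one_of_pos (show 0 < sg * z.re by linarith)
    linarith
  have h4 : |t| * Real.log (sg * z.re) ≤ |t| * (sg * z.re) :=
    mul_le_mul_of_nonneg_left h3 (abs_nonneg _)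
  have h5 : |H| ≤ |H| * (sg * z.re) := le_mul_of_one_le_right (abs_nonneg _) hx
  calc ‖z‖ ≤ |z.re| + |z.im| := Complex.norm_le_abs_re_add_abs_im z
    _ ≤ sg * z.re + (|t| * (sg * z.re) + |H| * (sg * z.re)) := by rw [h1]; linarith
    _ = _ := by ring

lemma Gr87.exp (ν : ℝ) : Gr87 sg t H (fun z => Complex.exp (Complex.I * (ν : ℂ) * z)) := by
  refine ⟨|ν| * |t|, Real.exp (|ν| * |H|), by positivity, by positivity, fun z hz => ?_⟩
  have hx : 1 ≤ sg * z.re := hz.1
  have hx0 : 0 < sg * z.re := by linarith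
  rw [Complex.norm_exp, Real.rpow_def_of_pos hx0, ← Real.exp_add]
  refine Real.exp_le_exp.2 ?_
  have h1 : (Complex.I * (ν : ℂ) * z).re = -(ν * z.im) := by simp
  rw [h1]
  have h2 := im_le87 hz
  calc -(ν * z.im) ≤ |ν * z.im| := neg_le_abs _
    _ = |ν| * |z.im| := abs_mul _ _
    _ ≤ |ν| * (|t| * Real.log (sg * z.re) + |H|) := mul_le_mul_of_nonneg_left h2 (abs_nonneg _)
    _ = _ := by ring

lemma Gr87.poly (hsg : sg = 1 ∨ sg = -1) (p : Polynomial ℂ) :
    Gr87 sg t H (fun z => p.eval z) := by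
  induction p using Polynomial.induction_on' with
  | add p q hp hq => simpa using hp.add hq
  | monomial n a =>
    have h : ∀ n : ℕ, Gr87 sg t H (fun z => z ^ n) := by
      intro n
      induction n with
      | zero => simpa using Gr87.const (sg := sg) (t := t) (H := H) 1
      | succ n ih => simpa [pow_succ] using ih.mul (Gr87.id hsg)
    simpa using (Gr87.const a).mul (h n)

/-- ROW N3 (growth). -/
theorem growth {σ : Type} [Fintype σ] [DecidableEq σ] (ν : σ → ℝ) (sg : ℝ)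
    (hsg : sg = 1 ∨ sg = -1) (t H : ℝ) (s : B σ) :
    ∃ M K : ℝ, 0 ≤ M ∧ 0 ≤ K ∧ ∀ z ∈ Str sg t H, ‖evB ν z s‖ ≤ K * (sg * z.re) ^ M := by
  change Gr87 sg t H (fun z => evB ν z s)
  induction s using MvPolynomial.induction_on with
  | C a => simpa [evB] using Gr87.poly hsg a
  | add p q hp hq => simpa using hp.add hq
  | mul_X p i hp =>
    have h := hp.mul (Gr87.exp (sg := sg) (t := t) (H := H) (ν i))
    simpa [evB] using h

end Pool.Agent.Helper77.EHR.Q
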