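import Pool.Agent.Helper77.EHR.Q.PairB
import Pool.Agent.Helper77.EHR.Q.DerB
import Pool.Agent.Helper77.EHR.Q.Grow

/-! MP_4f9849, all exponential polynomials: row N7. -/

namespace Pool.Agent.Helper77.EHR.Q

/-- **ROW N7** (close distinct zeros are near common zeros of finitely many pairs). -/
theorem pairsB {σ : Type} [Fintype σ] [DecidableEq σ] (ν : σ → ℝ) (hind : IndB ν) (P : B σ)
    (hP : P ≠ 0) :
    ∃ D : Finset (B σ × B σ), (∀ p ∈ D, Irreducible p.1 ∧ ¬ p.1 ∣ p.2) ∧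
      ∀ (sg : ℝ) (_ : sg = 1 ∨ sg = -1) (t H : ℝ), ∃ M K : ℝ, 0 ≤ M ∧ 0 ≤ K ∧
        ∀ z w : ℂ, z ∈ Str sg t H → 2 ≤ sg * z.re → evB ν z P = 0 → evB ν w P = 0 → w ≠ z →
          ‖z - w‖ ≤ 1 → ∃ p ∈ D, ‖evB ν z p.1‖ ≤ K * (sg * z.re) ^ M * ‖z - w‖ ∧
            ‖evB ν z p.2‖ ≤ K * (sg * z.re) ^ M * ‖z - w‖ :=
  pairsB_of (growth ν) (derivB_ex ν) (derivB ν hind) P hP

end Pool.Agent.Helper77.EHR.Q
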