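import Mathlib
import Pool.Agent.Helper77.EHR.Q.Defs
import Pool.Agent.Helper77.EHR.P.Lat

/-! MP_4f9849, ROW N9: reduction of an exponential sum to a polynomial in `z` and exponentials. -/

namespace Pool.Agent.Helper77.EHR.Q

open Pool.Agent.Helper77.EHR.P (A ev Ind)

/-- ROW N9 (reduction to `B`; uses P/Lat.lean `lattice_row`). -/
theorem reduce {ι : Type*} [Fintype ι] (p : ι → Polynomial ℂ) (l : ι → ℝ)
    (hl : Function.Injective l) (ha : ∀ j, IsAlgebraic ℚ (l j)) (hp : ∀ j, p j ≠ 0)
    (i0 i1 : ι) (h : i0 ≠ i1) :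
    ∃ (r : ℕ) (ω0 : ℝ) (ω : Fin r → ℝ) (μ : ℝ) (P : B (Option (Fin r))),
      ω0 ≠ 0 ∧ IsAlgebraic ℚ ω0 ∧ (∀ j, IsAlgebraic ℚ (ω j)) ∧ Ind ω0 ω ∧ P ≠ 0 ∧
      ∀ z, ∑ j, (p j).eval z * Complex.exp (Complex.I * (l j : ℂ) * z) =
        Complex.exp (Complex.I * (μ : ℂ) * z) * evB (nu ω0 ω) z P := by
  classical
  obtain ⟨r, ω0, ω, μ, m0, m, h0, h1, h2, h3, h4⟩ :=
    Pool.Agent.Helper77.EHR.P.lattice_row l ha i0 i1 (hl.ne h)
  let e : ι → (Option (Fin r) →₀ ℕ) := fun j =>
    Finsupp.equivFunOnFinite.symm (fun o => o.elim (m0 j) (m j))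
  have he : Function.Injective e := by
    intro j j' hj
    have hj' : (fun o : Option (Fin r) => o.elim (m0 j) (m j)) =
        (fun o : Option (Fin r) => o.elim (m0 j') (m j')) := Finsupp.equivFunOnFinite.symm.injective hj
    have e0 : m0 j = m0 j' := congrFun hj' none
    have e1 : ∀ i, m j i = m j' i := fun i => congrFun hj' (some i)
    apply hl
    rw [h4 j, h4 j', e0]
    simp only [e1]
  let P : B (Option (Fin r)) := ∑ j, MvPolynomial.monomial (e j) (p j)
  refine ⟨r, ω0, ω, μ, P, h0, h1, h2, h3, ?_, ?_⟩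
  · intro hP
    have hc : MvPolynomial.coeff (e i0) P = p i0 := by
      simp only [P, MvPolynomial.coeff_sum, MvPolynomial.coeff_monomial]
      rw [Finset.sum_eq_single i0]
      · simp
      · intro j _ hj
        rw [if_neg (fun hh => hj (he hh))]
      · intro hh
        exact absurd (Finset.mem_univ i0) hh
    rw [hP, MvPolynomial.coeff_zero] at hc
    exact hp i0 hc.symm
  · intro z
    have hmon : ∀ j, evB (nu ω0 ω) z (MvPolynomial.monomial (e j) (p j)) =
        (p j).eval z * Complex.exp (Complex.I * ((l j - μ : ℝ) : ℂ) * z) := by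
      intro j
      rw [evB, MvPolynomial.eval₂Hom_monomial, Finsupp.prod_fintype _ _ (by simp)]
      rw [Polynomial.coe_evalRingHom]
      congr 1
      simp only [← Complex.exp_nat_mul]
      rw [← Complex.exp_sum, Fintype.sum_option]
      congr 1
      have hlj : ((l j - μ : ℝ) : ℂ) = (m0 j : ℂ) * (ω0 : ℂ) + ∑ i, (m j i : ℂ) * (ω i : ℂ) := by
        rw [h4 j]
        push_cast
        ring
      rw [hlj]
      simp only [e, nu, Finsupp.equivFunOnFinite_symm_apply_apply, Option.elim]
      rw [mul_add, add_mul, Finset.mul_sum, Finset.sum_mul]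
      congr 1
      · ring
      · refine Finset.sum_congr rfl fun i _ => ?_
        ring
    simp only [P, map_sum, hmon]
    rw [Finset.mul_sum]
    refine Finset.sum_congr rfl fun j _ => ?_
    rw [mul_left_comm, ← Complex.exp_add]
    congr 2
    push_cast
    ring

end Pool.Agent.Helper77.EHR.Q
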