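import Mathlib
import Pool.Agent.Helper77.EHR.Q.Defs

/-! MP_4f9849: principal part of a polynomial in `z` and exponentials along a logarithmic strip. -/

set_option autoImplicit false

namespace Pool.Agent.Helper77.EHR.Q

/-- frequency of a monomial -/
noncomputable def fr62 {σ : Type} (ν : σ → ℝ) (m : σ →₀ ℕ) : ℝ := m.sum fun i k => (k : ℝ) * ν i

lemma prod_exp62 {σ : Type} (ν : σ → ℝ) (m : σ →₀ ℕ) (z : ℂ) :
    (m.prod fun i k => Complex.exp (Complex.I * (ν i : ℂ) * z) ^ k) =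
      Complex.exp (Complex.I * (fr62 ν m : ℂ) * z) := by
  unfold fr62 Finsupp.prod Finsupp.sum
  push_cast
  rw [Finset.mul_sum, Finset.sum_mul, Complex.exp_sum]
  refine Finset.prod_congr rfl fun i _ => ?_
  rw [← Complex.exp_nat_mul]
  congr 1
  ring

lemma evB_mono62 {σ : Type} (ν : σ → ℝ) (z : ℂ) (m : σ →₀ ℕ) (a : ℕ) (c : ℂ) :
    evB ν z (MvPolynomial.monomial m (Polynomial.monomial a c)) =
      c * z ^ a * Complex.exp (Complex.I * (fr62 ν m : ℂ) * z) := by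
  unfold evB
  rw [MvPolynomial.eval₂Hom_monomial, prod_exp62]
  simp

lemma evC_mono62 {σ : Type} (ν : σ → ℝ) (z : ℂ) (m : σ →₀ ℕ) (c : ℂ) :
    evC ν z (MvPolynomial.monomial m c) = c * Complex.exp (Complex.I * (fr62 ν m : ℂ) * z) := by
  unfold evC
  rw [MvPolynomial.eval₂Hom_monomial, prod_exp62]
  simp

lemma str_re62 {sg : ℝ} (hsg : sg = 1 ∨ sg = -1) (z : ℂ) : z.re = sg * (sg * z.re) := by
  rcases hsg with h | h <;> subst h <;> ring

lemma str_im62 {sg t H : ℝ} {z : ℂ} (hz : z ∈ Str sg t H) :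
    |z.im| ≤ (|H| + 2 * |t|) * (sg * z.re) ^ (1 / 2 : ℝ) := by
  obtain ⟨h1, h2⟩ := hz
  set X := sg * z.re with hX
  have hX0 : 0 ≤ X := by linarith
  have h3 : 1 ≤ X ^ (1 / 2 : ℝ) := Real.one_le_rpow h1 (by norm_num)
  have h4 : Real.log X ≤ X ^ (1 / 2 : ℝ) / (1 / 2) := Real.log_le_rpow_div hX0 (by norm_num)
  have h5 : 0 ≤ Real.log X := Real.log_nonneg h1
  have h6 : |z.im| ≤ |z.im - t * Real.log X| + |t * Real.log X| := by
    have := abs_add_le (z.im - t * Real.log X) (t * Real.log X)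
    simpa using this
  have h7 : |t * Real.log X| ≤ |t| * (X ^ (1 / 2 : ℝ) / (1 / 2)) := by
    rw [abs_mul, abs_of_nonneg h5]
    exact mul_le_mul_of_nonneg_left h4 (abs_nonneg _)
  have h8 : H ≤ |H| * X ^ (1 / 2 : ℝ) :=
    (le_abs_self H).trans (le_mul_of_one_le_right (abs_nonneg _) h3)
  calc |z.im| ≤ |H| * X ^ (1 / 2 : ℝ) + |t| * (X ^ (1 / 2 : ℝ) / (1 / 2)) := by linarith
    _ = _ := by ring

lemma str_norm62 {sg t H : ℝ} (hsg : sg = 1 ∨ sg = -1) {z : ℂ} (hz : z ∈ Str sg t H) :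
    ‖z‖ ≤ (1 + (|H| + 2 * |t|)) * (sg * z.re) := by
  have h1 := str_im62 hz
  obtain ⟨hX, -⟩ := hz
  set X := sg * z.re with hXd
  have h2 : |z.re| = X := by
    rw [str_re62 hsg z, abs_mul, ← hXd, abs_of_nonneg (by linarith : 0 ≤ X)]
    rcases hsg with h | h <;> subst h <;> simp
  have h3 : X ^ (1 / 2 : ℝ) ≤ X := by
    calc X ^ (1 / 2 : ℝ) ≤ X ^ (1 : ℝ) := Real.rpow_le_rpow_of_exponent_le hX (by norm_num)
      _ = X := Real.rpow_one X
  have h4 : ‖z‖ ≤ |z.re| + |z.im| := Complex.norm_le_abs_re_add_abs_im z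
  have h5 : (|H| + 2 * |t|) * X ^ (1 / 2 : ℝ) ≤ (|H| + 2 * |t|) * X :=
    mul_le_mul_of_nonneg_left h3 (by positivity)
  rw [h2] at h4
  linarith

/-- the exponential splits into a bounded part and a power -/
lemma exp_split62 {sg t H : ℝ} {z : ℂ} (hz : z ∈ Str sg t H) (r : ℝ) :
    Complex.exp (Complex.I * (r : ℂ) * z) =
      Complex.exp (Complex.I * (r : ℂ) * low sg t z) * (((sg * z.re) ^ (-(t * r)) : ℝ) : ℂ) := by
  have hX : 0 < sg * z.re := by linarith [hz.1]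
  rw [Real.rpow_def_of_pos hX, Complex.ofReal_exp, ← Complex.exp_add]
  congr 1
  unfold low
  push_cast
  have hI : Complex.I * Complex.I = -1 := Complex.I_mul_I
  linear_combination ((r : ℂ) * t * Real.log (sg * z.re)) * hI

lemma exp_low62 {sg t H : ℝ} {z : ℂ} (hz : z ∈ Str sg t H) (r : ℝ) :
    ‖Complex.exp (Complex.I * (r : ℂ) * low sg t z)‖ ≤ Real.exp (|r| * |H|) := by
  rw [Complex.norm_exp]
  refine Real.exp_le_exp.2 ?_
  have h1 : (Complex.I * (r : ℂ) * low sg t z).re = -(r * (z.im - t * Real.log (sg * z.re))) := by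
    unfold low
    simp
  rw [h1]
  calc -(r * (z.im - t * Real.log (sg * z.re))) ≤ |r * (z.im - t * Real.log (sg * z.re))| :=
        neg_le_abs _
    _ = |r| * |z.im - t * Real.log (sg * z.re)| := abs_mul _ _
    _ ≤ |r| * |H| := mul_le_mul_of_nonneg_left (hz.2.trans (le_abs_self H)) (abs_nonneg _)

/-- powers of `z` and of its real part -/
lemma pow_sub62 {sg : ℝ} (hsg : sg = 1 ∨ sg = -1) (t H : ℝ) (a : ℕ) :
    ∃ K : ℝ, 0 ≤ K ∧ ∀ z ∈ Str sg t H,
      ‖z ^ a - ((z.re : ℝ) : ℂ) ^ a‖ ≤ K * (sg * z.re) ^ ((a : ℝ) - 1 / 2) := by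
  induction a with
  | zero =>
    refine ⟨0, le_rfl, fun z _ => by simp⟩
  | succ a ih =>
    obtain ⟨K, hK, ih⟩ := ih
    refine ⟨(1 + (|H| + 2 * |t|)) * K + (|H| + 2 * |t|), by positivity, fun z hz => ?_⟩
    have h1 := ih z hz
    have h2 := str_norm62 hsg hz
    have h3 := str_im62 hz
    have hX1 : 1 ≤ sg * z.re := hz.1
    set X := sg * z.re with hXd
    have hX : 0 < X := by linarith
    have hre : |z.re| = X := by
      rw [str_re62 hsg z, abs_mul, ← hXd, abs_of_nonneg hX.le]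
      rcases hsg with h | h <;> subst h <;> simp
    have h4 : z ^ (a + 1) - ((z.re : ℝ) : ℂ) ^ (a + 1) =
        z * (z ^ a - ((z.re : ℝ) : ℂ) ^ a) + (z - ((z.re : ℝ) : ℂ)) * ((z.re : ℝ) : ℂ) ^ a := by
      ring
    have h5 : ‖z - ((z.re : ℝ) : ℂ)‖ = |z.im| := by
      have : z - ((z.re : ℝ) : ℂ) = (z.im : ℂ) * Complex.I := by
        apply Complex.ext <;> simp
      rw [this, norm_mul, Complex.norm_I, mul_one, Complex.norm_real, Real.norm_eq_abs]
    have h6 : ‖(((z.re : ℝ) : ℂ)) ^ a‖ = X ^ (a : ℝ) := by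
      rw [norm_pow, Complex.norm_real, Real.norm_eq_abs, hre, Real.rpow_natCast]
    have e1 : X * X ^ ((a : ℝ) - 1 / 2) = X ^ (((a + 1 : ℕ) : ℝ) - 1 / 2) := by
      rw [← Real.rpow_one_add' hX.le]
      · congr 1; push_cast; ring
      · have := Nat.cast_nonneg (α := ℝ) a
        intro h; linarith
    have e2 : X ^ (1 / 2 : ℝ) * X ^ (a : ℝ) = X ^ (((a + 1 : ℕ) : ℝ) - 1 / 2) := by
      rw [← Real.rpow_add hX]
      congr 1; push_cast; ring
    rw [h4]
    refine (norm_add_le _ _).trans ?_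
    rw [norm_mul, norm_mul, h5, h6]
    calc ‖z‖ * ‖z ^ a - ((z.re : ℝ) : ℂ) ^ a‖ + |z.im| * X ^ (a : ℝ)
        ≤ ((1 + (|H| + 2 * |t|)) * X) * (K * X ^ ((a : ℝ) - 1 / 2)) +
          ((|H| + 2 * |t|) * X ^ (1 / 2 : ℝ)) * X ^ (a : ℝ) := by
          refine add_le_add (mul_le_mul h2 h1 (norm_nonneg _) (by positivity)) ?_
          exact mul_le_mul_of_nonneg_right h3 (by positivity)
      _ = (1 + (|H| + 2 * |t|)) * K * (X * X ^ ((a : ℝ) - 1 / 2)) +
          (|H| + 2 * |t|) * (X ^ (1 / 2 : ℝ) * X ^ (a : ℝ)) := by ring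
      _ = _ := by rw [e1, e2]; ring

/-- the approximation property -/
def Ap62 {σ : Type} (ν : σ → ℝ) (sg t H M : ℝ) (s : B σ) (g : MvPolynomial σ ℂ) : Prop :=
  ∃ ε K : ℝ, 0 < ε ∧ 0 ≤ K ∧ ∀ z ∈ Str sg t H,
    ‖evB ν z s - (((sg * z.re) ^ M : ℝ) : ℂ) * evC ν (low sg t z) g‖ ≤ K * (sg * z.re) ^ (M - ε)

lemma Ap62.zero {σ : Type} (ν : σ → ℝ) (sg t H M : ℝ) : Ap62 ν sg t H M 0 0 :=
  ⟨1, 0, one_pos, le_rfl, fun z _ => by simp⟩

lemma Ap62.add {σ : Type} {ν : σ → ℝ} {sg t H M : ℝ} {s s' : B σ} {g g' : MvPolynomial σ ℂ}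
    (h : Ap62 ν sg t H M s g) (h' : Ap62 ν sg t H M s' g') :
    Ap62 ν sg t H M (s + s') (g + g') := by
  obtain ⟨ε, K, hε, hK, h⟩ := h
  obtain ⟨ε', K', hε', hK', h'⟩ := h'
  refine ⟨min ε ε', K + K', lt_min hε hε', add_nonneg hK hK', fun z hz => ?_⟩
  have h1 := h z hz
  have h2 := h' z hz
  have hX1 : 1 ≤ sg * z.re := hz.1
  set X := sg * z.re with hXd
  have e1 : X ^ (M - ε) ≤ X ^ (M - min ε ε') :=
    Real.rpow_le_rpow_of_exponent_le hX1 (by linarith [min_le_left ε ε'])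
  have e2 : X ^ (M - ε') ≤ X ^ (M - min ε ε') :=
    Real.rpow_le_rpow_of_exponent_le hX1 (by linarith [min_le_right ε ε'])
  have e3 : evB ν z (s + s') - ((X ^ M : ℝ) : ℂ) * evC ν (low sg t z) (g + g') =
      (evB ν z s - ((X ^ M : ℝ) : ℂ) * evC ν (low sg t z) g) +
      (evB ν z s' - ((X ^ M : ℝ) : ℂ) * evC ν (low sg t z) g') := by
    rw [map_add, map_add]; ring
  rw [e3]
  calc _ ≤ K * X ^ (M - ε) + K' * X ^ (M - ε') := (norm_add_le _ _).trans (add_le_add h1 h2)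
    _ ≤ K * X ^ (M - min ε ε') + K' * X ^ (M - min ε ε') :=
        add_le_add (mul_le_mul_of_nonneg_left e1 hK) (mul_le_mul_of_nonneg_left e2 hK')
    _ = _ := by ring

lemma Ap62.sum {σ : Type} {ν : σ → ℝ} {sg t H M : ℝ} {α : Type*} (T : Finset α)
    (s : α → B σ) (g : α → MvPolynomial σ ℂ) (h : ∀ i ∈ T, Ap62 ν sg t H M (s i) (g i)) :
    Ap62 ν sg t H M (∑ i ∈ T, s i) (∑ i ∈ T, g i) := by
  classical
  induction T using Finset.induction_on with
  | empty => simpa using Ap62.zero ν sg t H M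
  | insert a T ha ih =>
    rw [Finset.sum_insert ha, Finset.sum_insert ha]
    exact (h a (Finset.mem_insert_self _ _)).add
      (ih fun i hi => h i (Finset.mem_insert_of_mem hi))

/-- one monomial -/
lemma Ap62.mono {σ : Type} (ν : σ → ℝ) {sg : ℝ} (hsg : sg = 1 ∨ sg = -1) (t H M : ℝ)
    (m : σ →₀ ℕ) (a : ℕ) (c : ℂ) (hM : (a : ℝ) - t * fr62 ν m ≤ M) :
    Ap62 ν sg t H M (MvPolynomial.monomial m (Polynomial.monomial a c))
      (if (a : ℝ) - t * fr62 ν m = M then MvPolynomial.monomial m (c * (sg : ℂ) ^ a) else 0) := by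
  by_cases hw : (a : ℝ) - t * fr62 ν m = M
  · rw [if_pos hw]
    obtain ⟨K, hK, hpow⟩ := pow_sub62 hsg t H a
    refine ⟨1 / 2, ‖c‖ * Real.exp (|fr62 ν m| * |H|) * K, by norm_num, by positivity,
      fun z hz => ?_⟩
    rw [evB_mono62, evC_mono62, exp_split62 hz]
    have h1 := hpow z hz
    have h2 := exp_low62 hz (fr62 ν m)
    have hX1 : 1 ≤ sg * z.re := hz.1
    have hre := str_re62 hsg z
    set X := sg * z.re with hXd
    have hX : 0 < X := by linarith
    have e1 : ((X ^ M : ℝ) : ℂ) = ((X ^ (-(t * fr62 ν m)) : ℝ) : ℂ) * (X : ℂ) ^ a := by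
      have : X ^ M = X ^ (-(t * fr62 ν m)) * X ^ a := by
        rw [← hw, ← Real.rpow_natCast, ← Real.rpow_add hX]
        congr 1; ring
      rw [this]; push_cast; ring
    have e2 : c * z ^ a * (Complex.exp (Complex.I * (fr62 ν m : ℂ) * low sg t z) *
          ((X ^ (-(t * fr62 ν m)) : ℝ) : ℂ)) -
        ((X ^ M : ℝ) : ℂ) * (c * (sg : ℂ) ^ a *
          Complex.exp (Complex.I * (fr62 ν m : ℂ) * low sg t z)) =
        c * Complex.exp (Complex.I * (fr62 ν m : ℂ) * low sg t z) *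
          ((X ^ (-(t * fr62 ν m)) : ℝ) : ℂ) * (z ^ a - ((z.re : ℝ) : ℂ) ^ a) := by
      rw [e1, hre]
      push_cast
      ring
    rw [e2, norm_mul, norm_mul, norm_mul, Complex.norm_real, Real.norm_eq_abs,
      abs_of_pos (Real.rpow_pos_of_pos hX _)]
    calc ‖c‖ * ‖Complex.exp (Complex.I * (fr62 ν m : ℂ) * low sg t z)‖ *
          X ^ (-(t * fr62 ν m)) * ‖z ^ a - ((z.re : ℝ) : ℂ) ^ a‖
        ≤ ‖c‖ * Real.exp (|fr62 ν m| * |H|) * X ^ (-(t * fr62 ν m)) *
          (K * X ^ ((a : ℝ) - 1 / 2)) := by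
          gcongr
      _ = ‖c‖ * Real.exp (|fr62 ν m| * |H|) * K *
          (X ^ (-(t * fr62 ν m)) * X ^ ((a : ℝ) - 1 / 2)) := by ring
      _ = _ := by
          rw [← Real.rpow_add hX]
          congr 2
          rw [← hw]; ring
  · rw [if_neg hw]
    have hlt : (a : ℝ) - t * fr62 ν m < M := lt_of_le_of_ne hM hw
    refine ⟨M - ((a : ℝ) - t * fr62 ν m),
      ‖c‖ * (1 + (|H| + 2 * |t|)) ^ a * Real.exp (|fr62 ν m| * |H|), by linarith, by positivity,
      fun z hz => ?_⟩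
    rw [evB_mono62, exp_split62 hz, map_zero, mul_zero, sub_zero]
    have h2 := exp_low62 hz (fr62 ν m)
    have h3 := str_norm62 hsg hz
    have hX1 : 1 ≤ sg * z.re := hz.1
    set X := sg * z.re with hXd
    have hX : 0 < X := by linarith
    rw [norm_mul, norm_mul, norm_mul, norm_pow, Complex.norm_real, Real.norm_eq_abs,
      abs_of_pos (Real.rpow_pos_of_pos hX _)]
    calc ‖c‖ * ‖z‖ ^ a * (‖Complex.exp (Complex.I * (fr62 ν m : ℂ) * low sg t z)‖ *
          X ^ (-(t * fr62 ν m)))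
        ≤ ‖c‖ * ((1 + (|H| + 2 * |t|)) * X) ^ a * (Real.exp (|fr62 ν m| * |H|) *
          X ^ (-(t * fr62 ν m))) := by
          gcongr
      _ = ‖c‖ * (1 + (|H| + 2 * |t|)) ^ a * Real.exp (|fr62 ν m| * |H|) *
          (X ^ (a : ℝ) * X ^ (-(t * fr62 ν m))) := by
          rw [mul_pow, Real.rpow_natCast]; ring
      _ = _ := by
          rw [← Real.rpow_add hX]
          congr 2
          ring

variable {σ : Type} [Fintype σ] [DecidableEq σ]

omit [Fintype σ] in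
/-- ROW N2 (principal part along the slope `t`). -/
theorem principal (ν : σ → ℝ) (sg : ℝ) (hsg : sg = 1 ∨ sg = -1) (t H : ℝ) (s : B σ) (hs : s ≠ 0) :
    ∃ (g : MvPolynomial σ ℂ) (M ε K : ℝ), g ≠ 0 ∧
      (∀ i, MvPolynomial.degreeOf i s = 0 → MvPolynomial.degreeOf i g = 0) ∧ 0 < ε ∧ 0 ≤ K ∧
      ∀ z ∈ Str sg t H, ‖evB ν z s - (((sg * z.re) ^ M : ℝ) : ℂ) * evC ν (low sg t z) g‖ ≤
        K * (sg * z.re) ^ (M - ε) := by
  classical
  let T : Finset (Σ _ : σ →₀ ℕ, ℕ) := s.support.sigma fun m => (s.coeff m).support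
  have hT : T.Nonempty := by
    obtain ⟨m, hm⟩ : s.support.Nonempty := by
      rw [Finset.nonempty_iff_ne_empty]
      intro h
      exact hs (MvPolynomial.support_eq_empty.1 h)
    have h1 : s.coeff m ≠ 0 := MvPolynomial.mem_support_iff.1 hm
    obtain ⟨a, ha⟩ := Polynomial.support_nonempty.2 h1
    exact ⟨⟨m, a⟩, Finset.mem_sigma.2 ⟨hm, ha⟩⟩
  obtain ⟨⟨m0, a0⟩, hmem0, hmax⟩ := Finset.exists_max_image T
    (fun p => (p.2 : ℝ) - t * fr62 ν p.1) hT
  set M : ℝ := (a0 : ℝ) - t * fr62 ν m0 with hM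
  let gg : (σ →₀ ℕ) → ℕ → MvPolynomial σ ℂ := fun m a =>
    if (a : ℝ) - t * fr62 ν m = M then
      MvPolynomial.monomial m ((s.coeff m).coeff a * (sg : ℂ) ^ a) else 0
  let g : MvPolynomial σ ℂ := ∑ m ∈ s.support, ∑ a ∈ (s.coeff m).support, gg m a
  have hs1 : s = ∑ m ∈ s.support, ∑ a ∈ (s.coeff m).support,
      MvPolynomial.monomial m (Polynomial.monomial a ((s.coeff m).coeff a)) := by
    conv_lhs => rw [MvPolynomial.as_sum s]
    refine Finset.sum_congr rfl fun m _ => ?_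
    conv_lhs => rw [(s.coeff m).as_sum_support]
    rw [map_sum]
  have hap : Ap62 ν sg t H M s g := by
    rw [hs1]
    refine Ap62.sum _ _ _ fun m hm => Ap62.sum _ _ _ fun a ha => ?_
    exact Ap62.mono ν hsg t H M m a _ (hmax ⟨m, a⟩ (Finset.mem_sigma.2 ⟨hm, ha⟩))
  have hcoef : ∀ m, g.coeff m = if m ∈ s.support then
      ∑ a ∈ (s.coeff m).support, (gg m a).coeff m else 0 := by
    intro m
    have h1 : ∀ m' a, m' ≠ m → (gg m' a).coeff m = 0 := by
      intro m' a hne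
      simp only [gg]
      split_ifs
      · rw [MvPolynomial.coeff_monomial, if_neg hne]
      · exact MvPolynomial.coeff_zero m
    simp only [g, MvPolynomial.coeff_sum]
    split_ifs with hm
    · rw [Finset.sum_eq_single m]
      · intro m' _ hne
        exact Finset.sum_eq_zero fun a _ => h1 m' a hne
      · intro h; exact absurd hm h
    · refine Finset.sum_eq_zero fun m' hm' => Finset.sum_eq_zero fun a _ => h1 m' a ?_
      rintro rfl
      exact hm hm'
  obtain ⟨hm0, ha0⟩ := Finset.mem_sigma.1 hmem0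
  have hsg0 : (sg : ℂ) ≠ 0 := by
    rcases hsg with h | h <;> subst h <;> simp
  have hg : g ≠ 0 := by
    intro h0
    have h1 := hcoef m0
    rw [if_pos hm0, h0, MvPolynomial.coeff_zero, Finset.sum_eq_single a0] at h1
    · simp only [gg] at h1
      rw [if_pos rfl, MvPolynomial.coeff_monomial, if_pos rfl] at h1
      exact (mul_ne_zero (Polynomial.mem_support_iff.1 ha0) (pow_ne_zero _ hsg0)) h1.symm
    · intro a _ hne
      simp only [gg]
      rw [if_neg, MvPolynomial.coeff_zero]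
      intro h
      apply hne
      have : (a : ℝ) = a0 := by linarith
      exact_mod_cast this
    · intro h; exact absurd ha0 h
  obtain ⟨ε, K, hε, hK, hb⟩ := hap
  refine ⟨g, M, ε, K, hg, fun i hi => ?_, hε, hK, hb⟩
  have hsub : ∀ m ∈ g.support, m ∈ s.support := by
    intro m hm
    by_contra hn
    rw [MvPolynomial.mem_support_iff, hcoef m, if_neg hn] at hm
    exact hm rfl
  have h1 : MvPolynomial.degreeOf i g ≤ 0 := by
    rw [MvPolynomial.degreeOf_le_iff]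
    intro m hm
    have h2 : MvPolynomial.degreeOf i s ≤ 0 := hi.le
    exact (MvPolynomial.degreeOf_le_iff.1 h2) m (hsub m hm)
  omega

end Pool.Agent.Helper77.EHR.Q
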