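import Mathlib
import Pool.Agent.Helper77.EHR.Q.Defs
import Pool.Agent.Helper77.EHR.Rank1

/-! MP_4f9849, all exponential polynomials: sparse families of zeros. -/

namespace Pool.Agent.Helper77.EHR.Q

/-- power saving over the trivial count. -/
def Sp (W : ℝ → Set ℂ) : Prop := ∃ κ C : ℝ, 0 < κ ∧ 0 ≤ C ∧ ∀ R : ℝ, 1 ≤ R →
  (W R).Finite ∧ ((W R).ncard : ℝ) ≤ C * R ^ (1 - κ)

lemma Sp.mono {W W' : ℝ → Set ℂ} (h : Sp W') (hs : ∀ R, 1 ≤ R → W R ⊆ W' R) : Sp W := by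
  obtain ⟨κ, C, hκ, hC, h⟩ := h
  refine ⟨κ, C, hκ, hC, fun R hR => ?_⟩
  obtain ⟨h1, h2⟩ := h R hR
  refine ⟨h1.subset (hs R hR), le_trans ?_ h2⟩
  exact_mod_cast Set.ncard_le_ncard (hs R hR) h1

lemma Sp.union {W W' : ℝ → Set ℂ} (h : Sp W) (h' : Sp W') : Sp (fun R => W R ∪ W' R) := by
  obtain ⟨κ, C, hκ, hC, h⟩ := h
  obtain ⟨κ', C', hκ', hC', h'⟩ := h'
  refine ⟨min κ κ', C + C', lt_min hκ hκ', add_nonneg hC hC', fun R hR => ?_⟩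
  obtain ⟨h1, h2⟩ := h R hR
  obtain ⟨h3, h4⟩ := h' R hR
  refine ⟨h1.union h3, ?_⟩
  have e1 : R ^ (1 - κ) ≤ R ^ (1 - min κ κ') :=
    Real.rpow_le_rpow_of_exponent_le hR (by linarith [min_le_left κ κ'])
  have e2 : R ^ (1 - κ') ≤ R ^ (1 - min κ κ') :=
    Real.rpow_le_rpow_of_exponent_le hR (by linarith [min_le_right κ κ'])
  calc ((W R ∪ W' R).ncard : ℝ) ≤ (W R).ncard + (W' R).ncard := by
        exact_mod_cast Set.ncard_union_le _ _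
    _ ≤ C * R ^ (1 - min κ κ') + C' * R ^ (1 - min κ κ') :=
        add_le_add (h2.trans (mul_le_mul_of_nonneg_left e1 hC))
          (h4.trans (mul_le_mul_of_nonneg_left e2 hC'))
    _ = _ := by ring

lemma Sp.empty : Sp (fun _ => ∅) := ⟨1, 0, one_pos, le_rfl, fun R _ => by simp⟩

lemma Sp.biUnion {ι : Type*} (s : Finset ι) (W : ι → ℝ → Set ℂ) (h : ∀ i ∈ s, Sp (W i)) :
    Sp (fun R => ⋃ i ∈ s, W i R) := by
  classical
  induction s using Finset.induction_on with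
  | empty => simpa using Sp.empty
  | insert a s ha ih =>
    have h1 := (h a (Finset.mem_insert_self _ _)).union
      (ih (fun i hi => h i (Finset.mem_insert_of_mem hi)))
    refine h1.mono (fun R _ => ?_)
    rw [Finset.set_biUnion_insert]

/-- counting zeros by cells. -/
lemma cnt (f : ℂ → ℂ) (sg t H : ℝ) (Z : ℕ)
    (hZ : ∀ (k : ℤ) (S : Finset ℂ), (∀ a ∈ S, f a = 0 ∧ a ∈ Str sg t H ∧ (k : ℝ) ≤ a.re ∧
      a.re < k + 1) → S.card ≤ Z) (W : Set ℂ) (hW : W.Finite)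
    (hW1 : ∀ z ∈ W, f z = 0 ∧ z ∈ Str sg t H) (n : ℝ)
    (h : ∀ S : Finset ℤ, (∀ k ∈ S, ∃ z ∈ W, (k : ℝ) ≤ z.re ∧ z.re < k + 1) → (S.card : ℝ) ≤ n) :
    (W.ncard : ℝ) ≤ Z * n := by
  classical
  have e1 : W.ncard ≤ Z * (hW.toFinset.image (fun z : ℂ => ⌊z.re⌋)).card := by
    rw [Set.ncard_eq_toFinset_card W hW]
    refine Finset.card_le_mul_card_image (f := fun z : ℂ => ⌊z.re⌋) hW.toFinset Z (fun k hk => ?_)
    refine hZ k _ (fun z hz => ?_)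
    rw [Finset.mem_filter, Set.Finite.mem_toFinset] at hz
    obtain ⟨h3, h4⟩ := hz
    refine ⟨(hW1 z h3).1, (hW1 z h3).2, ?_, ?_⟩
    · rw [← h4]; exact Int.floor_le z.re
    · rw [← h4]; exact Int.lt_floor_add_one z.re
  have e2 := h (hW.toFinset.image (fun z : ℂ => ⌊z.re⌋)) (fun k hk => by
    rw [Finset.mem_image] at hk
    obtain ⟨z, hz, rfl⟩ := hk
    exact ⟨z, (Set.Finite.mem_toFinset hW).1 hz, Int.floor_le z.re, Int.lt_floor_add_one z.re⟩)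
  calc (W.ncard : ℝ) ≤ Z * (hW.toFinset.image (fun z : ℂ => ⌊z.re⌋)).card := by exact_mod_cast e1
    _ ≤ Z * n := mul_le_mul_of_nonneg_left e2 (by positivity)

lemma card_Icc (S : Finset ℤ) (Y : ℝ) (hY : 0 ≤ Y) (h : ∀ k ∈ S, |(k : ℝ)| ≤ Y) :
    (S.card : ℝ) ≤ 2 * Y + 1 := by
  have h2 : S ⊆ Finset.Icc (-⌊Y⌋) ⌊Y⌋ := by
    intro k hk
    have h3 := abs_le.1 (h k hk)
    rw [Finset.mem_Icc]
    constructor
    · rw [neg_le]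
      apply Int.le_floor.2
      push_cast
      linarith
    · exact Int.le_floor.2 h3.2
  have h4 := Finset.card_le_card h2
  rw [Int.card_Icc] at h4
  have h5 : 0 ≤ ⌊Y⌋ := Int.floor_nonneg.2 hY
  have h6 : ((⌊Y⌋ + 1 - -⌊Y⌋).toNat : ℝ) = 2 * ⌊Y⌋ + 1 := by
    have : ((⌊Y⌋ + 1 - -⌊Y⌋).toNat : ℤ) = 2 * ⌊Y⌋ + 1 := by
      rw [Int.toNat_of_nonneg (by linarith)]; ring
    exact_mod_cast this
  have h7 : (⌊Y⌋ : ℝ) ≤ Y := Int.floor_le Y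
  calc (S.card : ℝ) ≤ ((⌊Y⌋ + 1 - -⌊Y⌋).toNat : ℝ) := by exact_mod_cast h4
    _ = 2 * ⌊Y⌋ + 1 := h6
    _ ≤ _ := by linarith

/-- the zeros of modulus at most `√R` in a logarithmic strip. -/
lemma sp_small (f : ℂ → ℂ) (hf : ∀ R : ℝ, {z : ℂ | ‖z‖ ≤ R ∧ f z = 0}.Finite) (sg t H : ℝ) (Z : ℕ)
    (hZ : ∀ (k : ℤ) (S : Finset ℂ), (∀ a ∈ S, f a = 0 ∧ a ∈ Str sg t H ∧ (k : ℝ) ≤ a.re ∧
      a.re < k + 1) → S.card ≤ Z) :
    Sp (fun R => {z | f z = 0 ∧ z ∈ Str sg t H ∧ ‖z‖ ≤ R ^ (1 / 2 : ℝ)}) := by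
  refine ⟨1 / 2, Z * 5, by norm_num, by positivity, fun R hR => ?_⟩
  have hR0 : 0 < R := by linarith
  have h1 : 1 ≤ R ^ (1 / 2 : ℝ) := Real.one_le_rpow hR (by norm_num)
  have hfin : {z | f z = 0 ∧ z ∈ Str sg t H ∧ ‖z‖ ≤ R ^ (1 / 2 : ℝ)}.Finite :=
    (hf (R ^ (1 / 2 : ℝ))).subset (fun z hz => ⟨hz.2.2, hz.1⟩)
  refine ⟨hfin, ?_⟩
  have h2 := cnt f sg t H Z hZ _ hfin (fun z hz => ⟨hz.1, hz.2.1⟩) (5 * R ^ (1 / 2 : ℝ)) (by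
    intro S hS
    have h3 := card_Icc S (R ^ (1 / 2 : ℝ) + 1) (by linarith) (fun k hk => by
      obtain ⟨z, hz, h4, h5⟩ := hS k hk
      have h6 := abs_le.1 ((Complex.abs_re_le_norm z).trans hz.2.2)
      exact abs_le.2 ⟨by linarith, by linarith⟩)
    linarith)
  have h7 : (1 - 1 / 2 : ℝ) = 1 / 2 := by norm_num
  rw [h7]
  linarith

end Pool.Agent.Helper77.EHR.Q
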