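import Mathlib
import Pool.Agent.Helper77.EHR.Q.ElimB
import Pool.Agent.Helper77.EHR.Q.Grow
import Pool.Agent.Helper77.EHR.Q.Fam
import Pool.Agent.Helper77.EHR.Q.Prin
import Pool.Agent.Helper77.EHR.Q.Sparse
import Pool.Agent.Helper77.EHR.P.Asm

/-! MP_4f9849, all exponential polynomials: one pair along one slope. -/

namespace Pool.Agent.Helper77.EHR.Q

open Pool.Agent.Helper77.EHR.P (A ev Ind small cells_union)

lemma low_re (sg t : ℝ) (z : ℂ) : (low sg t z).re = z.re := by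
  unfold low; simp

lemma low_im (sg t : ℝ) (z : ℂ) : (low sg t z).im = z.im - t * Real.log (sg * z.re) := by
  unfold low; simp

/-- one variable eliminated. -/
theorem elim_one {r : ℕ} (ω0 : ℝ) (ω : Fin r → ℝ) (sg : ℝ) (hsg : sg = 1 ∨ sg = -1) (t H : ℝ)
    (P Q : B (Option (Fin r))) (hP : Irreducible P) (hPQ : ¬ P ∣ Q) (M K : ℝ) (hK : 0 ≤ K)
    (i : Option (Fin r)) :
    ∃ (g : MvPolynomial (Option (Fin r)) ℂ) (q ε K' : ℝ), g ≠ 0 ∧ MvPolynomial.degreeOf i g = 0 ∧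
      0 < ε ∧ 0 ≤ K' ∧ ∀ z ∈ Str sg t H, ∀ q' : ℝ, q ≤ q' →
        ‖evB (nu ω0 ω) z P‖ ≤ K * (sg * z.re) ^ (M - q') →
        ‖evB (nu ω0 ω) z Q‖ ≤ K * (sg * z.re) ^ (M - q') →
        ‖evC (nu ω0 ω) (low sg t z) g‖ ≤ K' * (sg * z.re) ^ (-ε) := by
  obtain ⟨a, b, s, hs, hsi, hab⟩ := elimB i P Q hP hPQ
  obtain ⟨g, Ms, ε, Ks, hg, hdeg, hε, hKs, hprin⟩ := principal (nu ω0 ω) sg hsg t H s hs
  obtain ⟨Ma, Ka, hMa, hKa, ha⟩ := growth (nu ω0 ω) sg hsg t H a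
  obtain ⟨Mb, Kb, hMb, hKb, hb⟩ := growth (nu ω0 ω) sg hsg t H b
  refine ⟨g, Ma + Mb + M - Ms + ε, ε, Ka * K + Kb * K + Ks, hg, hdeg i hsi, hε, by positivity, ?_⟩
  intro z hz q' hq' h1 h2
  obtain ⟨x, hx⟩ : ∃ x : ℝ, x = sg * z.re := ⟨_, rfl⟩
  have hx1 : 1 ≤ x := hx ▸ hz.1
  have hx0 : 0 < x := by linarith
  have e1 := hprin z hz
  have e2 := ha z hz
  have e3 := hb z hz
  rw [← hx] at h1 h2 e1 e2 e3 ⊢
  have hsn : ‖evB (nu ω0 ω) z s‖ ≤ (Ka * K + Kb * K) * x ^ (Ms - ε) := by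
    rw [← hab, map_add, map_mul, map_mul]
    have e4 : x ^ Ma * x ^ (M - q') ≤ x ^ (Ms - ε) := by
      rw [← Real.rpow_add hx0]
      exact Real.rpow_le_rpow_of_exponent_le hx1 (by linarith)
    have e5 : x ^ Mb * x ^ (M - q') ≤ x ^ (Ms - ε) := by
      rw [← Real.rpow_add hx0]
      exact Real.rpow_le_rpow_of_exponent_le hx1 (by linarith)
    calc _ ≤ ‖evB (nu ω0 ω) z a‖ * ‖evB (nu ω0 ω) z P‖ +
          ‖evB (nu ω0 ω) z b‖ * ‖evB (nu ω0 ω) z Q‖ := by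
          rw [← norm_mul, ← norm_mul]; exact norm_add_le _ _
      _ ≤ (Ka * x ^ Ma) * (K * x ^ (M - q')) + (Kb * x ^ Mb) * (K * x ^ (M - q')) := by
          gcongr
      _ = Ka * K * (x ^ Ma * x ^ (M - q')) + Kb * K * (x ^ Mb * x ^ (M - q')) := by ring
      _ ≤ Ka * K * x ^ (Ms - ε) + Kb * K * x ^ (Ms - ε) := by gcongr
      _ = _ := by ring
  have e6 : x ^ Ms * ‖evC (nu ω0 ω) (low sg t z) g‖ ≤ (Ka * K + Kb * K + Ks) * x ^ (Ms - ε) := by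
    have e7 : ‖((x ^ Ms : ℝ) : ℂ) * evC (nu ω0 ω) (low sg t z) g‖ =
        x ^ Ms * ‖evC (nu ω0 ω) (low sg t z) g‖ := by
      rw [norm_mul, Complex.norm_real, Real.norm_eq_abs, abs_of_pos (by positivity)]
    rw [← e7]
    have e8 := norm_sub_norm_le (((x ^ Ms : ℝ) : ℂ) * evC (nu ω0 ω) (low sg t z) g)
      (evB (nu ω0 ω) z s)
    rw [norm_sub_rev] at e8
    calc _ ≤ Ks * x ^ (Ms - ε) + (Ka * K + Kb * K) * x ^ (Ms - ε) := by linarith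
      _ = _ := by ring
  have e9 : x ^ (Ms - ε) = x ^ Ms * x ^ (-ε) := by
    rw [← Real.rpow_add hx0]; congr 1
  have e10 : 0 < x ^ Ms := by positivity
  rw [e9] at e6
  have e11 : x ^ Ms * ‖evC (nu ω0 ω) (low sg t z) g‖ ≤
      x ^ Ms * ((Ka * K + Kb * K + Ks) * x ^ (-ε)) := by
    calc _ ≤ _ := e6
      _ = _ := by ring
  exact le_of_mul_le_mul_left e11 e10

/-- near common zeros go to near common zeros without `z`. -/
theorem one {r : ℕ} (ω0 : ℝ) (ω : Fin r → ℝ) (sg : ℝ) (hsg : sg = 1 ∨ sg = -1) (t H : ℝ)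
    (P Q : B (Option (Fin r))) (hP : Irreducible P) (hPQ : ¬ P ∣ Q) (M K : ℝ) (hK : 0 ≤ K) :
    ∃ (q : ℕ) (D : Finset (A r × A r)) (e K' X : ℝ), 0 < e ∧ 0 ≤ K' ∧ 1 ≤ X ∧
      (∀ p ∈ D, Irreducible p.1 ∧ ¬ p.1 ∣ p.2) ∧
      ∀ z ∈ Str sg t H, X ≤ sg * z.re → ∀ q' : ℝ, (q : ℝ) ≤ q' →
        ‖evB (nu ω0 ω) z P‖ ≤ K * (sg * z.re) ^ (M - q') →
        ‖evB (nu ω0 ω) z Q‖ ≤ K * (sg * z.re) ^ (M - q') →
        ∃ p ∈ D, ‖ev ω0 ω (fun _ => 0) (low sg t z) p.1‖ ≤ K' * (sg * z.re) ^ (-e) ∧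
          ‖ev ω0 ω (fun _ => 0) (low sg t z) p.2‖ ≤ K' * (sg * z.re) ^ (-e) := by
  classical
  choose g q ε K1 hg hdeg hε hK1 hmain using
    elim_one ω0 ω sg hsg t H P Q hP hPQ M K hK
  obtain ⟨D, e, K2, he, hK2, hD, hfam⟩ := family ω0 ω g hg hdeg H
  obtain ⟨q0, hq0⟩ := exists_nat_ge (∑ i, |q i|)
  have hq0' : ∀ i, q i ≤ q0 := fun i => (le_abs_self _).trans
    ((Finset.single_le_sum (f := fun i => |q i|) (fun _ _ => abs_nonneg _) (Finset.mem_univ i)).trans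
      hq0)
  obtain ⟨i0, _, hi0⟩ := Finset.exists_min_image Finset.univ ε ⟨none, Finset.mem_univ _⟩
  obtain ⟨K3, hK3⟩ : ∃ K3 : ℝ, K3 = ∑ i, K1 i + 1 := ⟨_, rfl⟩
  have hK3' : 0 < K3 := by
    rw [hK3]
    have : 0 ≤ ∑ i, K1 i := Finset.sum_nonneg (fun i _ => hK1 i)
    linarith
  have hK1' : ∀ i, K1 i ≤ K3 := fun i => by
    rw [hK3]
    have := Finset.single_le_sum (f := K1) (fun i _ => hK1 i) (Finset.mem_univ i)
    linarith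
  obtain ⟨δ0, hδ0, hsm⟩ := small (2 * (1 + K2) * K3) (ε i0) (hε i0)
  refine ⟨q0, D, ε i0 * e, K2 * K3 ^ e, max 1 (1 / δ0), mul_pos (hε i0) he, by positivity,
    le_max_left _ _, hD, fun z hz hX q' hq' h1 h2 => ?_⟩
  obtain ⟨x, hx⟩ : ∃ x : ℝ, x = sg * z.re := ⟨_, rfl⟩
  have hx1 : 1 ≤ x := hx ▸ hz.1
  have hx0 : 0 < x := by linarith
  have hxδ : 1 / x ≤ δ0 := by
    rw [div_le_iff₀ hx0, mul_comm, ← div_le_iff₀ hδ0, hx]
    exact (le_max_right _ _).trans hX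
  have e1 := hsm (1 / x) (by positivity) hxδ
  have e2 : (1 / x) ^ ε i0 = x ^ (-ε i0) := by
    rw [one_div, Real.inv_rpow hx0.le, Real.rpow_neg hx0.le]
  rw [e2] at e1
  have e3 : 0 < x ^ (-ε i0) := by positivity
  have e4 : K3 * x ^ (-ε i0) ≤ 1 := by
    nlinarith [mul_pos hK3' e3, mul_pos hK2 (mul_pos hK3' e3)]
  have e5 : K2 * (K3 * x ^ (-ε i0)) < 1 := by
    nlinarith [mul_pos hK3' e3, mul_pos hK2 (mul_pos hK3' e3)]
  have e6 : ∀ i, ‖evC (nu ω0 ω) (low sg t z) (g i)‖ ≤ K3 * x ^ (-ε i0) := by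
    intro i
    have e7 := hmain i z hz q' ((hq0' i).trans hq') h1 h2
    rw [← hx] at e7
    have e8 : x ^ (-ε i) ≤ x ^ (-ε i0) :=
      Real.rpow_le_rpow_of_exponent_le hx1 (neg_le_neg (hi0 i (Finset.mem_univ i)))
    calc _ ≤ _ := e7
      _ ≤ K3 * x ^ (-ε i0) := mul_le_mul (hK1' i) e8 (by positivity) hK3'.le
  rcases hfam (low sg t z) (K3 * x ^ (-ε i0)) (by rw [low_im]; exact hz.2) (by positivity) e4 e6
    with h | ⟨p, hp, h3, h4⟩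
  · linarith
  · have e9 : K2 * (K3 * x ^ (-ε i0)) ^ e = K2 * K3 ^ e * x ^ (-(ε i0 * e)) := by
      rw [Real.mul_rpow hK3'.le e3.le, ← Real.rpow_mul hx0.le]
      rw [neg_mul]
      ring
    rw [← hx, ← e9]
    exact ⟨p, hp, h3, h4⟩

end Pool.Agent.Helper77.EHR.Q
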