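import Mathlib
import Pool.Agent.Helper77.EHR.Q.One

/-! MP_4f9849, all exponential polynomials: counting near common zeros along one slope. -/

namespace Pool.Agent.Helper77.EHR.Q

open Pool.Agent.Helper77.EHR.P (A ev Ind small cells_union)

theorem sp_pair {r : ℕ} (ω0 : ℝ) (ω : Fin r → ℝ) (h0 : ω0 ≠ 0) (ha0 : IsAlgebraic ℚ ω0)
    (ha : ∀ j, IsAlgebraic ℚ (ω j)) (hind : Ind ω0 ω) (sg : ℝ) (hsg : sg = 1 ∨ sg = -1) (t H : ℝ)
    (P Q : B (Option (Fin r))) (hP : Irreducible P) (hPQ : ¬ P ∣ Q) (M K : ℝ) (hK : 0 ≤ K)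
    (f : ℂ → ℂ) (hf : ∀ R : ℝ, {z : ℂ | ‖z‖ ≤ R ∧ f z = 0}.Finite) (Z : ℕ)
    (hZ : ∀ (k : ℤ) (S : Finset ℂ), (∀ a ∈ S, f a = 0 ∧ a ∈ Str sg t H ∧ (k : ℝ) ≤ a.re ∧
      a.re < k + 1) → S.card ≤ Z) :
    ∃ q : ℕ, ∀ q' : ℝ, (q : ℝ) ≤ q' → Sp (fun R => {z | f z = 0 ∧ z ∈ Str sg t H ∧ ‖z‖ ≤ R ∧
      R ^ (1 / 2 : ℝ) ≤ 2 * (sg * z.re) ∧ ‖evB (nu ω0 ω) z P‖ ≤ K * (sg * z.re) ^ (M - q') ∧
        ‖evB (nu ω0 ω) z Q‖ ≤ K * (sg * z.re) ^ (M - q')}) := by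
  classical
  obtain ⟨q, D, e, K', X, he, hK', hX, hD, hone⟩ := one ω0 ω sg hsg t H P Q hP hPQ M K hK
  refine ⟨q, fun q' hq' => ?_⟩
  obtain ⟨A, κ, C, hκ, hκ1, hC, hcells⟩ := cells_union ω0 ω h0 ha0 ha hind H (K' * 2 ^ e) D hD
  obtain ⟨b, hb⟩ : ∃ b : ℝ, b = min (1 / ((A : ℝ) + 1)) (e / 2) := ⟨_, rfl⟩
  have hb0 : 0 < b := by rw [hb]; exact lt_min (by positivity) (by positivity)
  have hbA : b ≤ 1 / ((A : ℝ) + 1) := hb ▸ min_le_left _ _
  have hbe : b ≤ e / 2 := hb ▸ min_le_right _ _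
  obtain ⟨N0, hN0⟩ : ∃ N0 : ℕ, N0 = {z : ℂ | ‖z‖ ≤ 4 * X ^ 2 ∧ f z = 0}.ncard := ⟨_, rfl⟩
  have hA1 : (0 : ℝ) < (A : ℝ) + 1 := by positivity
  have hb1 : b ≤ 1 := hbA.trans (by
    rw [div_le_one hA1]; linarith [(Nat.cast_nonneg A : (0 : ℝ) ≤ A)])
  have hbκ : b * κ ≤ 1 := by nlinarith
  refine ⟨b * κ, N0 + Z * (4 * C), by positivity, by positivity, fun R hR => ?_⟩
  have hR0 : 0 < R := by linarith
  set W : Set ℂ := {z | f z = 0 ∧ z ∈ Str sg t H ∧ ‖z‖ ≤ R ∧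
      R ^ (1 / 2 : ℝ) ≤ 2 * (sg * z.re) ∧ ‖evB (nu ω0 ω) z P‖ ≤ K * (sg * z.re) ^ (M - q') ∧
        ‖evB (nu ω0 ω) z Q‖ ≤ K * (sg * z.re) ^ (M - q')} with hW
  have hfin : W.Finite := (hf R).subset (fun z hz => ⟨hz.2.2.1, hz.1⟩)
  refine ⟨hfin, ?_⟩
  have hR1 : 1 ≤ R ^ (1 - b * κ) := Real.one_le_rpow hR (by linarith)
  by_cases hRX : R < 4 * X ^ 2
  · have e1 : W.ncard ≤ N0 := by
      rw [hN0]
      exact Set.ncard_le_ncard (fun z hz => ⟨hz.2.2.1.trans hRX.le, hz.1⟩) (hf _)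
    calc (W.ncard : ℝ) ≤ N0 := by exact_mod_cast e1
      _ ≤ N0 * R ^ (1 - b * κ) := le_mul_of_one_le_right (by positivity) hR1
      _ ≤ (N0 + Z * (4 * C)) * R ^ (1 - b * κ) :=
        mul_le_mul_of_nonneg_right (le_add_of_nonneg_right (by positivity)) (by positivity)
  rw [not_lt] at hRX
  have hRh : X ≤ R ^ (1 / 2 : ℝ) / 2 := by
    have h1 : (2 * X) ≤ R ^ (1 / 2 : ℝ) := by
      rw [← Real.sqrt_eq_rpow]
      exact Real.le_sqrt_of_sq_le (by nlinarith)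
    linarith
  -- the scale
  have hRb1 : 1 ≤ R ^ b := Real.one_le_rpow hR hb0.le
  have hRb0 : 0 < R ^ b := by linarith
  obtain ⟨L, hL⟩ : ∃ L : ℕ, L = ⌊R ^ b⌋₊ := ⟨_, rfl⟩
  have hL1 : 1 ≤ L := by rw [hL]; exact Nat.le_floor (by exact_mod_cast hRb1)
  have hLy : (L : ℝ) ≤ R ^ b := by rw [hL]; exact Nat.floor_le hRb0.le
  have hL1' : (1 : ℝ) ≤ L := by exact_mod_cast hL1
  have hyL : R ^ b ≤ 2 * L := by
    have : R ^ b < L + 1 := by rw [hL]; exact Nat.lt_floor_add_one _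
    linarith
  have hLA : (L : ℝ) ^ A ≤ R + 1 := by
    calc (L : ℝ) ^ A ≤ (R ^ b) ^ A := pow_le_pow_left₀ (by positivity) hLy A
      _ = R ^ (b * A) := by
        rw [← Real.rpow_natCast (R ^ b), ← Real.rpow_mul hR0.le]
      _ ≤ R ^ (1 : ℝ) := Real.rpow_le_rpow_of_exponent_le hR (by
        calc b * A ≤ 1 / ((A : ℝ) + 1) * A := mul_le_mul_of_nonneg_right hbA (by positivity)
          _ ≤ 1 := by rw [one_div, inv_mul_le_iff₀ hA1]; linarith)
      _ ≤ R + 1 := by rw [Real.rpow_one]; linarith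
  have e2 := cnt f sg t H Z hZ W hfin (fun z hz => ⟨hz.1, hz.2.1⟩)
    (4 * C * R ^ (1 - b * κ)) (by
      intro S hS
      have e3 := hcells L (R + 1) S hL1 hLA (by linarith) (fun k hk => by
        obtain ⟨z, hz, h1, h2⟩ := hS k hk
        obtain ⟨hz1, hz2, hz3, hz4, hz5, hz6⟩ := hz
        have h3 := abs_le.1 ((Complex.abs_re_le_norm z).trans hz3)
        refine ⟨abs_le.2 ⟨by linarith, by linarith⟩, low sg t z, ?_, ?_, ?_, ?_⟩
        · rw [low_re]; exact h1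
        · rw [low_re]; exact h2
        · rw [low_im]; exact hz2.2
        · have hx : X ≤ sg * z.re := by linarith
          obtain ⟨p, hp, h4, h5⟩ := hone z hz2 hx q' hq' hz5 hz6
          have h6 : K' * (sg * z.re) ^ (-e) ≤ K' * 2 ^ e / L := by
            have h7 : (sg * z.re) ^ (-e) ≤ (R ^ (1 / 2 : ℝ) / 2) ^ (-e) :=
              Real.rpow_le_rpow_of_nonpos (by positivity) (by linarith) (by linarith)
            have h8 : (R ^ (1 / 2 : ℝ) / 2) ^ (-e) = 2 ^ e * R ^ (-(e / 2)) := by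
              rw [Real.div_rpow (by positivity) (by norm_num), ← Real.rpow_mul hR0.le,
                Real.rpow_neg (by norm_num : (0 : ℝ) ≤ 2), div_inv_eq_mul, mul_comm]
              congr 2
              ring
            have h9 : R ^ (-(e / 2)) ≤ 1 / L := by
              calc R ^ (-(e / 2)) ≤ R ^ (-b) :=
                    Real.rpow_le_rpow_of_exponent_le hR (by linarith)
                _ = 1 / R ^ b := by rw [Real.rpow_neg hR0.le, one_div]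
                _ ≤ 1 / L := one_div_le_one_div_of_le (by linarith) hLy
            calc K' * (sg * z.re) ^ (-e) ≤ K' * (2 ^ e * R ^ (-(e / 2))) := by
                  rw [← h8]; exact mul_le_mul_of_nonneg_left h7 hK'
              _ ≤ K' * (2 ^ e * (1 / L)) := by gcongr
              _ = _ := by ring
          exact ⟨p, hp, h4.trans h6, h5.trans h6⟩)
      have e4 : (L : ℝ) ^ (-κ) ≤ 2 * (R ^ b) ^ (-κ) := by
        have h1 : (L : ℝ) ^ (-κ) ≤ (R ^ b / 2) ^ (-κ) :=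
          Real.rpow_le_rpow_of_nonpos (by positivity) (by linarith) (by linarith)
        have h2 : (R ^ b / 2) ^ (-κ) = (R ^ b) ^ (-κ) * 2 ^ κ := by
          rw [Real.div_rpow hRb0.le (by norm_num), Real.rpow_neg (by norm_num : (0 : ℝ) ≤ 2)]
          field_simp
        have h3 : (2 : ℝ) ^ κ ≤ 2 := by
          calc (2 : ℝ) ^ κ ≤ 2 ^ (1 : ℝ) := Real.rpow_le_rpow_of_exponent_le (by norm_num) hκ1
            _ = 2 := Real.rpow_one _
        have h4 : 0 < (R ^ b) ^ (-κ) := by positivity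
        calc _ ≤ _ := h1
          _ = _ := h2
          _ ≤ (R ^ b) ^ (-κ) * 2 := mul_le_mul_of_nonneg_left h3 h4.le
          _ = _ := by ring
      have e5 : R * (R ^ b) ^ (-κ) = R ^ (1 - b * κ) := by
        rw [← Real.rpow_mul hR0.le, sub_eq_add_neg, Real.rpow_add hR0, Real.rpow_one]
        congr 2; ring
      calc (S.card : ℝ) ≤ C * (R + 1) * (L : ℝ) ^ (-κ) := e3
        _ ≤ C * (2 * R) * (2 * (R ^ b) ^ (-κ)) := by
          have h1 : R + 1 ≤ 2 * R := by linarith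
          gcongr
        _ = 4 * C * (R * (R ^ b) ^ (-κ)) := by ring
        _ = _ := by rw [e5])
  calc (W.ncard : ℝ) ≤ Z * (4 * C * R ^ (1 - b * κ)) := e2
    _ = (Z * (4 * C)) * R ^ (1 - b * κ) := by ring
    _ ≤ (N0 + Z * (4 * C)) * R ^ (1 - b * κ) :=
      mul_le_mul_of_nonneg_right (le_add_of_nonneg_left (by positivity)) (by positivity)

end Pool.Agent.Helper77.EHR.Q
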