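import Mathlib
import Pool.Agent.Helper77.EHR.Q.Defs

/-! MP_4f9849, row N6': from discs to cells of a logarithmic strip. -/

namespace Pool.Agent.Helper77.EHR.Q

/-- the logarithm varies by at most `1` on intervals of length `1` inside `[1, ∞)`. -/
lemma log_cell (x y : ℝ) (hx : 1 ≤ x) (hy : 1 ≤ y) (h : |x - y| ≤ 1) :
    |Real.log x - Real.log y| ≤ 1 := by
  have key : ∀ a b : ℝ, 1 ≤ a → 1 ≤ b → |a - b| ≤ 1 → Real.log a - Real.log b ≤ 1 := by
    intro a b ha hb hab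
    have h1 : Real.log (a / b) = Real.log a - Real.log b :=
      Real.log_div (by linarith) (by linarith)
    have h2 : Real.log (a / b) ≤ a / b - 1 := Real.log_le_sub_one_of_pos (by positivity)
    have h3 : a / b ≤ 2 := by
      rw [div_le_iff₀ (by linarith)]
      have := (abs_le.1 hab).2
      linarith
    linarith
  rw [abs_le]
  have h1 := key x y hx hy h
  have h2 := key y x hy hx (by rw [abs_sub_comm]; exact h)
  constructor <;> linarith

/-- ROW N6' (from discs to cells of a logarithmic strip). -/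
theorem zeros_str (f : ℂ → ℂ) (ρ : ℝ) (hρ : 0 < ρ) (N : ℕ)
    (h : ∀ (z0 : ℂ) (S : Finset ℂ), (∀ a ∈ S, f a = 0 ∧ ‖a - z0‖ ≤ ρ) → S.card ≤ N)
    (sg : ℝ) (hsg : sg = 1 ∨ sg = -1) (t H : ℝ) :
    ∃ Z : ℕ, ∀ (k : ℤ) (S : Finset ℂ), (∀ a ∈ S, f a = 0 ∧ a ∈ Str sg t H ∧ (k : ℝ) ≤ a.re ∧
      a.re < k + 1) → S.card ≤ Z := by
  classical
  set L : ℝ := 2 * |H| + |t| + 1 with hL
  have hL0 : 0 ≤ L := by positivity
  set M : ℤ := ⌈L / (ρ / 2)⌉ + 1 with hM
  have hM1 : L / (ρ / 2) + 1 ≤ (M : ℝ) := by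
    rw [hM]
    push_cast
    have := Int.le_ceil (L / (ρ / 2))
    linarith
  refine ⟨N * (Finset.Icc (-M) M ×ˢ Finset.Icc (-M) M).card, fun k S hS => ?_⟩
  rcases S.eq_empty_or_nonempty with rfl | ⟨a0, ha0⟩
  · simp
  obtain ⟨-, ⟨h01, h02⟩, h03, h04⟩ := hS a0 ha0
  -- the box
  have hbox : ∀ a ∈ S, |a.re - a0.re| ≤ L ∧ |a.im - a0.im| ≤ L := by
    intro a ha
    obtain ⟨-, ⟨h1, h2⟩, h3, h4⟩ := hS a ha
    have h5 : |a.re - a0.re| ≤ 1 := by
      rw [abs_le]; constructor <;> linarith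
    have h6 : |sg * a.re - sg * a0.re| ≤ 1 := by
      rw [← mul_sub, abs_mul]
      have : |sg| = 1 := by rcases hsg with rfl | rfl <;> simp
      rw [this, one_mul]; exact h5
    have h7 := log_cell _ _ h1 h01 h6
    have hH : H ≤ |H| := le_abs_self H
    constructor
    · refine h5.trans ?_
      rw [hL]
      nlinarith [abs_nonneg H, abs_nonneg t]
    · have h8 : |t * Real.log (sg * a.re) - t * Real.log (sg * a0.re)| ≤ |t| := by
        rw [← mul_sub, abs_mul]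
        nlinarith [abs_nonneg t]
      have h9 : a.im - a0.im = (a.im - t * Real.log (sg * a.re)) -
          (a0.im - t * Real.log (sg * a0.re)) +
          (t * Real.log (sg * a.re) - t * Real.log (sg * a0.re)) := by ring
      rw [abs_le] at h2 h02 h8 ⊢
      constructor <;> rw [hL] <;> linarith [h2.1, h2.2, h02.1, h02.2, h8.1, h8.2]
  let F : ℂ → ℤ × ℤ := fun a => (⌊(a.re - a0.re) / (ρ / 2)⌋, ⌊(a.im - a0.im) / (ρ / 2)⌋)
  have hfl : ∀ x : ℝ, |x| ≤ L → -M ≤ ⌊x / (ρ / 2)⌋ ∧ ⌊x / (ρ / 2)⌋ ≤ M := by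
    intro x hx
    have hρ2 : 0 < ρ / 2 := by linarith
    have h1 : |x / (ρ / 2)| ≤ L / (ρ / 2) := by
      rw [abs_div, abs_of_pos hρ2]
      exact div_le_div_of_nonneg_right hx hρ2.le
    rw [abs_le] at h1
    constructor
    · rw [Int.le_floor]
      push_cast
      linarith [h1.1]
    · have h2 : ((⌊x / (ρ / 2)⌋ : ℤ) : ℝ) ≤ (M : ℝ) := by
        have := Int.floor_le (x / (ρ / 2))
        linarith [h1.2]
      exact_mod_cast h2
  refine Finset.card_le_mul_card_image_of_maps_to (f := F) (fun a ha => ?_) N (fun b _ => ?_)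
  · obtain ⟨h1, h2⟩ := hbox a ha
    rw [Finset.mem_product, Finset.mem_Icc, Finset.mem_Icc]
    exact ⟨hfl _ h1, hfl _ h2⟩
  · refine h (a0 + ((b.1 * (ρ / 2) : ℝ) : ℂ) + ((b.2 * (ρ / 2) : ℝ) : ℂ) * Complex.I) _
      (fun a ha => ?_)
    rw [Finset.mem_filter] at ha
    obtain ⟨haS, hab⟩ := ha
    refine ⟨(hS a haS).1, ?_⟩
    have hρ2 : 0 < ρ / 2 := by linarith
    have hfr : ∀ (x : ℝ) (m : ℤ), ⌊x / (ρ / 2)⌋ = m → |x - m * (ρ / 2)| ≤ ρ / 2 := by
      intro x m hm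
      rw [Int.floor_eq_iff] at hm
      obtain ⟨h1, h2⟩ := hm
      rw [le_div_iff₀ hρ2] at h1
      rw [div_lt_iff₀ hρ2] at h2
      rw [abs_le]
      constructor <;> nlinarith
    have h1 := hfr (a.re - a0.re) b.1 (by rw [← hab])
    have h2 := hfr (a.im - a0.im) b.2 (by rw [← hab])
    refine (Complex.norm_le_abs_re_add_abs_im _).trans ?_
    have e1 : (a - (a0 + ((b.1 * (ρ / 2) : ℝ) : ℂ) + ((b.2 * (ρ / 2) : ℝ) : ℂ) * Complex.I)).re =
        a.re - a0.re - b.1 * (ρ / 2) := by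
      simp only [Complex.sub_re, Complex.add_re, Complex.ofReal_re, Complex.mul_re,
        Complex.ofReal_im, Complex.I_re, Complex.I_im]
      ring
    have e2 : (a - (a0 + ((b.1 * (ρ / 2) : ℝ) : ℂ) + ((b.2 * (ρ / 2) : ℝ) : ℂ) * Complex.I)).im =
        a.im - a0.im - b.2 * (ρ / 2) := by
      simp only [Complex.sub_im, Complex.add_im, Complex.ofReal_re, Complex.mul_im,
        Complex.ofReal_im, Complex.I_re, Complex.I_im]
      ring
    rw [e1, e2]
    linarith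

end Pool.Agent.Helper77.EHR.Q
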