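import Mathlib
import Pool.Agent.Helper77.EHR.Q.Slope
import Pool.Agent.Helper77.EHR.Q.PairBX
import Pool.Agent.Helper77.EHR.Q.Red
import Pool.Agent.Helper77.EHR.Q.Loc
import Pool.Agent.Helper77.EHR.Q.Disc
import Pool.Agent.Helper77.EHR.Q.ZStr

/-! MP_4f9849, all exponential polynomials: the final theorem. -/

namespace Pool.Agent.Helper77.EHR.Q

open Pool.Agent.Helper77.EHR (finite_zeros)
open Pool.Agent.Helper77.EHR.P (A ev Ind small cells_union)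

lemma indB_nu {r : ℕ} (ω0 : ℝ) (ω : Fin r → ℝ) (hind : Ind ω0 ω) : IndB (nu ω0 ω) := by
  intro h hh
  rw [Fintype.sum_option] at hh
  obtain ⟨h1, h2⟩ := hind (h none) (fun j => h (some j)) hh
  funext o
  cases o with
  | none => exact h1
  | some j => exact congrFun h2 j

/-- zeros with a close neighbour along one slope. -/
theorem sp_slope {r : ℕ} (ω0 : ℝ) (ω : Fin r → ℝ) (h0 : ω0 ≠ 0) (ha0 : IsAlgebraic ℚ ω0)
    (ha : ∀ j, IsAlgebraic ℚ (ω j)) (hind : Ind ω0 ω) (P : B (Option (Fin r))) (hP : P ≠ 0)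
    (f : ℂ → ℂ) (hfP : ∀ z, f z = 0 → evB (nu ω0 ω) z P = 0)
    (hf : ∀ R : ℝ, {z : ℂ | ‖z‖ ≤ R ∧ f z = 0}.Finite)
    (sg : ℝ) (hsg : sg = 1 ∨ sg = -1) (t H : ℝ) (Z : ℕ)
    (hZ : ∀ (k : ℤ) (S : Finset ℂ), (∀ a ∈ S, f a = 0 ∧ a ∈ Str sg t H ∧ (k : ℝ) ≤ a.re ∧
      a.re < k + 1) → S.card ≤ Z) :
    ∃ q : ℕ, ∀ q' : ℕ, q ≤ q' → Sp (fun R => {z | f z = 0 ∧ z ∈ Str sg t H ∧ ‖z‖ ≤ R ∧
      R ^ (1 / 2 : ℝ) ≤ 2 * (sg * z.re) ∧ 2 ≤ sg * z.re ∧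
      ∃ w, w ≠ z ∧ f w = 0 ∧ ‖z - w‖ ≤ (sg * z.re) ^ (-(q' : ℝ))}) := by
  classical
  obtain ⟨D, hD, hpairs⟩ := pairsB (nu ω0 ω) (indB_nu ω0 ω hind) P hP
  obtain ⟨M, K, hM, hK, hpairs⟩ := hpairs sg hsg t H
  have hq : ∀ p : B (Option (Fin r)) × B (Option (Fin r)), ∃ q : ℕ, p ∈ D → ∀ q' : ℝ, (q : ℝ) ≤ q' →
      Sp (fun R => {z | f z = 0 ∧ z ∈ Str sg t H ∧ ‖z‖ ≤ R ∧
      R ^ (1 / 2 : ℝ) ≤ 2 * (sg * z.re) ∧ ‖evB (nu ω0 ω) z p.1‖ ≤ K * (sg * z.re) ^ (M - q') ∧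
        ‖evB (nu ω0 ω) z p.2‖ ≤ K * (sg * z.re) ^ (M - q')}) := by
    intro p
    by_cases hp : p ∈ D
    · obtain ⟨q, hq⟩ := sp_pair ω0 ω h0 ha0 ha hind sg hsg t H p.1 p.2 (hD p hp).1 (hD p hp).2
        M K hK f hf Z hZ
      exact ⟨q, fun _ => hq⟩
    · exact ⟨0, fun h => absurd h hp⟩
  choose q hq using hq
  refine ⟨∑ p ∈ D, q p, fun q' hq' => ?_⟩
  have hqp : ∀ p ∈ D, ((q p : ℕ) : ℝ) ≤ q' := by
    intro p hp
    have := Finset.single_le_sum (f := q) (fun _ _ => Nat.zero_le _) hp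
    exact_mod_cast this.trans hq'
  refine (Sp.biUnion D (fun p R => {z | f z = 0 ∧ z ∈ Str sg t H ∧ ‖z‖ ≤ R ∧
      R ^ (1 / 2 : ℝ) ≤ 2 * (sg * z.re) ∧ ‖evB (nu ω0 ω) z p.1‖ ≤ K * (sg * z.re) ^ (M - (q' : ℝ)) ∧
        ‖evB (nu ω0 ω) z p.2‖ ≤ K * (sg * z.re) ^ (M - (q' : ℝ))})
      (fun p hp => hq p hp q' (hqp p hp))).mono (fun R hR z hz => ?_)
  obtain ⟨h1, h2, h3, h4, h5, w, h6, h7, h8⟩ := hz
  have hx0 : 0 < sg * z.re := by linarith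
  have h9 : ‖z - w‖ ≤ 1 := h8.trans (Real.rpow_le_one_of_one_le_of_nonpos (by linarith)
    (by simp))
  obtain ⟨p, hp, h10, h11⟩ := hpairs z w h2 h5 (hfP z h1) (hfP w h7) h6 h9
  rw [Set.mem_iUnion₂]
  have h12 : K * (sg * z.re) ^ M * ‖z - w‖ ≤ K * (sg * z.re) ^ (M - (q' : ℝ)) := by
    have e : (sg * z.re) ^ (M - (q' : ℝ)) = (sg * z.re) ^ M * (sg * z.re) ^ (-(q' : ℝ)) := by
      rw [← Real.rpow_add hx0, sub_eq_add_neg]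
    rw [e, ← mul_assoc]
    exact mul_le_mul_of_nonneg_left h8 (by positivity)
  exact ⟨p, hp, h1, h2, h3, h4, h10.trans h12, h11.trans h12⟩

/-- the zeros with a neighbour closer than `(1 + |z|)^(-q)`. -/
def BadZ (f : ℂ → ℂ) (q : ℕ) (R : ℝ) : Set ℂ :=
  {z₁ : ℂ | ‖z₁‖ ≤ R ∧ f z₁ = 0 ∧ ∃ z₂, z₂ ≠ z₁ ∧ f z₂ = 0 ∧ ‖z₁ - z₂‖ * (1 + ‖z₁‖) ^ q < 1}

theorem sp_bad {ι : Type*} [Fintype ι] (p : ι → Polynomial ℂ) (l : ι → ℝ)
    (hl : Function.Injective l) (ha : ∀ j, IsAlgebraic ℚ (l j)) (hp : ∀ j, p j ≠ 0) (j0 : ι)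
    (f : ℂ → ℂ) (hf : ∀ z, f z = ∑ j, (p j).eval z * Complex.exp (Complex.I * (l j : ℂ) * z))
    (hfin : ∀ R : ℝ, {z : ℂ | ‖z‖ ≤ R ∧ f z = 0}.Finite) :
    ∃ q : ℕ, Sp (BadZ f q) := by
  classical
  by_cases hsub : ∀ j, j = j0
  · -- one term
    have hz : ∀ z, f z = 0 → (p j0).eval z = 0 := by
      intro z hz
      rw [hf, Finset.sum_eq_single j0 (fun j _ hj => absurd (hsub j) hj) (by simp)] at hz
      exact (mul_eq_zero.1 hz).resolve_right (Complex.exp_ne_zero _)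
    have hfin' : {z : ℂ | f z = 0}.Finite := by
      refine (Multiset.finite_toSet (p j0).roots).subset (fun z hzz => ?_)
      exact (Polynomial.mem_roots (hp j0)).2 (hz z hzz)
    refine ⟨0, 1, ({z : ℂ | f z = 0}.ncard : ℝ), one_pos, by positivity, fun R hR => ?_⟩
    have hsub' : BadZ f 0 R ⊆ {z : ℂ | f z = 0} := fun z hz => hz.2.1
    refine ⟨hfin'.subset hsub', ?_⟩
    rw [sub_self, Real.rpow_zero, mul_one]
    exact_mod_cast Set.ncard_le_ncard hsub' hfin'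
  push Not at hsub
  obtain ⟨j1, hj1⟩ := hsub
  obtain ⟨r, ω0, ω, μ, P, h0, ha0, ha', hind, hP, hred⟩ := reduce p l hl ha hp j1 j0 hj1
  have hfP : ∀ z, f z = 0 → evB (nu ω0 ω) z P = 0 := by
    intro z hz
    rw [hf, hred] at hz
    exact (mul_eq_zero.1 hz).resolve_left (Complex.exp_ne_zero _)
  obtain ⟨T, H, X, hH, hX, hloc⟩ := zero_loc p l hl hp j0
  obtain ⟨ρ, N, hρ, hdisc⟩ := zeros_disc p l hl ⟨j0, hp j0⟩
  have hdisc' : ∀ (z0 : ℂ) (S : Finset ℂ), (∀ a ∈ S, f a = 0 ∧ ‖a - z0‖ ≤ ρ) → S.card ≤ N :=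
    fun z0 S hS => hdisc z0 S (fun a ha => ⟨by rw [← hf]; exact (hS a ha).1, (hS a ha).2⟩)
  -- slopes and signs
  let I : Finset (ℝ × ℝ) := T ×ˢ {1, -1}
  have hI : ∀ i ∈ I, i.2 = 1 ∨ i.2 = -1 := by
    intro i hi
    simpa [I] using (Finset.mem_product.1 hi).2
  have key : ∀ i : ℝ × ℝ, ∃ q : ℕ, i ∈ I → (∀ q' : ℕ, q ≤ q' →
      Sp (fun R => {z | f z = 0 ∧ z ∈ Str i.2 i.1 H ∧ ‖z‖ ≤ R ∧
      R ^ (1 / 2 : ℝ) ≤ 2 * (i.2 * z.re) ∧ 2 ≤ i.2 * z.re ∧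
      ∃ w, w ≠ z ∧ f w = 0 ∧ ‖z - w‖ ≤ (i.2 * z.re) ^ (-(q' : ℝ))})) ∧
      Sp (fun R => {z | f z = 0 ∧ z ∈ Str i.2 i.1 H ∧ ‖z‖ ≤ R ^ (1 / 2 : ℝ)}) := by
    intro i
    by_cases hi : i ∈ I
    · obtain ⟨Z, hZ⟩ := zeros_str f ρ hρ N hdisc' i.2 (hI i hi) i.1 H
      obtain ⟨q, hq⟩ := sp_slope ω0 ω h0 ha0 ha' hind P hP f hfP hfin i.2 (hI i hi) i.1 H Z hZ
      exact ⟨q, fun _ => ⟨hq, sp_small f hfin i.2 i.1 H Z hZ⟩⟩
    · exact ⟨0, fun h => absurd h hi⟩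
  choose q hq using key
  obtain ⟨Y, hY⟩ : ∃ Y : ℝ, Y = max X 4 := ⟨_, rfl⟩
  have hbase : Sp (fun _ => {z : ℂ | ‖z‖ ≤ Y ∧ f z = 0}) := by
    refine ⟨1, ({z : ℂ | ‖z‖ ≤ Y ∧ f z = 0}.ncard : ℝ), one_pos, by positivity, fun R hR => ?_⟩
    refine ⟨hfin Y, ?_⟩
    rw [sub_self, Real.rpow_zero, mul_one]
  refine ⟨∑ i ∈ I, q i, ?_⟩
  obtain ⟨q', hq'⟩ : ∃ q' : ℕ, q' = ∑ i ∈ I, q i := ⟨_, rfl⟩
  rw [← hq']
  have hqi : ∀ i ∈ I, q i ≤ q' := fun i hi => by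
    rw [hq']; exact Finset.single_le_sum (fun _ _ => Nat.zero_le _) hi
  refine ((hbase.union (Sp.biUnion I _ (fun i hi => (hq i hi).2))).union
    (Sp.biUnion I _ (fun i hi => (hq i hi).1 q' (hqi i hi)))).mono (fun R hR z hz => ?_)
  obtain ⟨h1, h2, w, h3, h4, h5⟩ := hz
  by_cases hzY : ‖z‖ ≤ Y
  · exact Or.inl (Or.inl ⟨hzY, h2⟩)
  rw [not_le] at hzY
  have hz4 : 4 < ‖z‖ := lt_of_le_of_lt (hY ▸ le_max_right _ _) hzY
  obtain ⟨t, ht, sg, hsg, hst, hx⟩ := hloc z ((hY ▸ le_max_left X 4).trans hzY.le)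
    (by rw [← hf]; exact h2)
  have hiI : (t, sg) ∈ I := by
    rw [Finset.mem_product]
    exact ⟨ht, by rcases hsg with h | h <;> simp [h]⟩
  by_cases hzR : ‖z‖ ≤ R ^ (1 / 2 : ℝ)
  · refine Or.inl (Or.inr ?_)
    rw [Set.mem_iUnion₂]
    exact ⟨(t, sg), hiI, h2, hst, hzR⟩
  rw [not_le] at hzR
  refine Or.inr ?_
  rw [Set.mem_iUnion₂]
  have hx0 : 0 < sg * z.re := by linarith
  have hxz : sg * z.re ≤ 1 + ‖z‖ := by
    have e1 := abs_le.1 (Complex.abs_re_le_norm z)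
    rcases hsg with h | h <;> rw [h] <;> linarith
  refine ⟨(t, sg), hiI, h2, hst, h1, by linarith, by linarith, w, h3, h4, ?_⟩
  have e2 : (sg * z.re) ^ q' ≤ (1 + ‖z‖) ^ q' := pow_le_pow_left₀ hx0.le hxz _
  have e3 : ‖z - w‖ * (sg * z.re) ^ q' ≤ 1 :=
    (mul_le_mul_of_nonneg_left e2 (norm_nonneg _)).trans h5.le
  show ‖z - w‖ ≤ (sg * z.re) ^ (-(q' : ℝ))
  rw [Real.rpow_neg hx0.le, Real.rpow_natCast, ← one_div, le_div_iff₀ (by positivity)]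
  exact e3

/-- **all exponential polynomials**. -/
theorem all_poly {n : ℕ} (p : Fin n → Polynomial ℂ) (l : Fin n → ℝ) (hl : Function.Injective l)
    (ha : ∀ j, IsAlgebraic ℚ (l j)) (hp : ∃ j, p j ≠ 0) (f : ℂ → ℂ)
    (hf : ∀ z, f z = ∑ j, (p j).eval z * Complex.exp (Complex.I * (l j : ℂ) * z)) :
    ∃ (q : ℕ) (κ C : ℝ), 0 < κ ∧ ∀ R : ℝ, 1 ≤ R →
      {z₁ : ℂ | ‖z₁‖ ≤ R ∧ f z₁ = 0 ∧
        ∃ z₂, z₂ ≠ z₁ ∧ f z₂ = 0 ∧ ‖z₁ - z₂‖ * (1 + ‖z₁‖) ^ q < 1}.Finite ∧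
      ({z₁ : ℂ | ‖z₁‖ ≤ R ∧ f z₁ = 0 ∧
        ∃ z₂, z₂ ≠ z₁ ∧ f z₂ = 0 ∧ ‖z₁ - z₂‖ * (1 + ‖z₁‖) ^ q < 1}.ncard : ℝ)
        ≤ C * R ^ (1 - κ) := by
  classical
  obtain ⟨j0, hj0⟩ := hp
  let p' : {j // p j ≠ 0} → Polynomial ℂ := fun j => p j
  let l' : {j // p j ≠ 0} → ℝ := fun j => l j
  have hfG : ∀ z, f z = ∑ j, (p' j).eval z * Complex.exp (Complex.I * (l' j : ℂ) * z) := by
    intro z
    rw [hf]
    have h1 : ∑ j : {j // p j ≠ 0}, (p' j).eval z * Complex.exp (Complex.I * (l' j : ℂ) * z) =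
        ∑ j ∈ Finset.univ.filter (fun j => p j ≠ 0),
          (p j).eval z * Complex.exp (Complex.I * (l j : ℂ) * z) := by
      rw [← Finset.sum_subtype_eq_sum_filter]
      simp [p', l']
    rw [h1]
    refine (Finset.sum_subset (Finset.filter_subset _ _) (fun j _ hj => ?_)).symm
    have : p j = 0 := by
      by_contra hne
      exact hj (Finset.mem_filter.2 ⟨Finset.mem_univ _, hne⟩)
    rw [this, Polynomial.eval_zero, zero_mul]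
  have hl' : Function.Injective l' := fun a b h => Subtype.ext (hl h)
  have hp' : ∀ j, p' j ≠ 0 := fun j => j.2
  have hfin : ∀ R : ℝ, {z : ℂ | ‖z‖ ≤ R ∧ f z = 0}.Finite := by
    intro R
    have hfun : f = fun z => ∑ j, (p' j).eval z * Complex.exp (Complex.I * (l' j : ℂ) * z) :=
      funext hfG
    have h1 := finite_zeros f (fun z => by
      rw [hfun]
      have hd : Differentiable ℂ (fun z => ∑ j, (p' j).eval z *
          Complex.exp (Complex.I * (l' j : ℂ) * z)) := by fun_prop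
      exact hd.analyticAt z) (by
      by_contra hcon
      push Not at hcon
      obtain ⟨ρ, N, hρ, hdisc⟩ := zeros_disc p' l' hl' ⟨⟨j0, hj0⟩, hj0⟩
      have h2 := hdisc 0 ((Finset.range (N + 1)).image
        (fun n : ℕ => ((ρ / (n + 1) : ℝ) : ℂ))) (fun a ha => ⟨by rw [← hfG]; exact hcon a, by
          rw [Finset.mem_image] at ha
          obtain ⟨n, _, rfl⟩ := ha
          rw [sub_zero, Complex.norm_real, Real.norm_eq_abs, abs_of_pos (by positivity)]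
          exact div_le_self hρ.le (by linarith [(Nat.cast_nonneg n : (0 : ℝ) ≤ n)])⟩)
      rw [Finset.card_image_of_injective, Finset.card_range] at h2
      · omega
      · intro a b hab
        have h3 : (ρ / (a + 1) : ℝ) = ρ / (b + 1) := Complex.ofReal_injective hab
        rw [div_eq_div_iff (by positivity) (by positivity)] at h3
        have h4 : (b : ℝ) + 1 = a + 1 := mul_left_cancel₀ hρ.ne' h3
        exact_mod_cast (by linarith : (a : ℝ) = b)) R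
    exact h1.subset (fun z hz => ⟨hz.2, hz.1⟩)
  obtain ⟨q, κ, C, hκ, _, h⟩ := sp_bad p' l' hl' (fun j => ha j) hp' ⟨j0, hj0⟩ f hfG hfin
  exact ⟨q, κ, C, hκ, h⟩

end Pool.Agent.Helper77.EHR.Q
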