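import Mathlib
import Pool.Agent.Helper77.EHR.Q.Defs
import Pool.Agent.Helper77.EHR.P.PairsOf

/-! MP_4f9849, all exponential polynomials: close distinct zeros in a logarithmic strip are near
common zeros of one of finitely many pairs of polynomials (row N7, over the rows N3, N7a, N7b). -/

namespace Pool.Agent.Helper77.EHR.Q

open Pool.Agent.Helper77.EHR.P (deriv_small9)

variable {σ : Type}

/-- the unit disc around a point of a logarithmic strip -/
theorem mem_Str_of_near {sg t H : ℝ} (hsg : sg = 1 ∨ sg = -1) {z v : ℂ} (hz : z ∈ Str sg t H)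
    (h2 : 2 ≤ sg * z.re) (hv : ‖v - z‖ ≤ 1) :
    v ∈ Str sg t (H + 1 + |t|) ∧ sg * v.re ≤ 2 * (sg * z.re) := by
  have hre : |sg * v.re - sg * z.re| ≤ 1 := by
    have h1 : |v.re - z.re| ≤ 1 := by
      rw [← Complex.sub_re]
      exact (Complex.abs_re_le_norm _).trans hv
    rcases hsg with rfl | rfl
    · simpa using h1
    · rw [show (-1 : ℝ) * v.re - -1 * z.re = -(v.re - z.re) by ring, abs_neg]
      exact h1
  have him : |v.im - z.im| ≤ 1 := by
    rw [← Complex.sub_im]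
    exact (Complex.abs_im_le_norm _).trans hv
  obtain ⟨_, hz2⟩ := hz
  show (1 ≤ sg * v.re ∧ |v.im - t * Real.log (sg * v.re)| ≤ H + 1 + |t|) ∧
    sg * v.re ≤ 2 * (sg * z.re)
  generalize sg * z.re = x at *
  generalize sg * v.re = y at *
  rw [abs_le] at hre
  have hy1 : 1 ≤ y := by linarith [hre.1]
  have hx0 : 0 < x := by linarith
  have hy0 : 0 < y := by linarith
  have hlog : |Real.log x - Real.log y| ≤ 1 := by
    rw [abs_le]
    constructor
    · have h3 := Real.log_le_sub_one_of_pos (div_pos hy0 hx0)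
      rw [Real.log_div hy0.ne' hx0.ne'] at h3
      have h4 : y / x ≤ 2 := by
        rw [div_le_iff₀ hx0]
        linarith [hre.2]
      linarith
    · have h3 := Real.log_le_sub_one_of_pos (div_pos hx0 hy0)
      rw [Real.log_div hx0.ne' hy0.ne'] at h3
      have h4 : x / y ≤ 2 := by
        rw [div_le_iff₀ hy0]
        linarith [hre.1]
      linarith
  refine ⟨⟨hy1, ?_⟩, by linarith [hre.2]⟩
  have h5 : v.im - t * Real.log y =
      (z.im - t * Real.log x) + (v.im - z.im) + t * (Real.log x - Real.log y) := by ring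
  rw [h5]
  calc |(z.im - t * Real.log x) + (v.im - z.im) + t * (Real.log x - Real.log y)|
      ≤ |z.im - t * Real.log x| + |v.im - z.im| + |t * (Real.log x - Real.log y)| :=
        (abs_add_le _ _).trans (add_le_add (abs_add_le _ _) le_rfl)
    _ ≤ H + 1 + |t| := by
        rw [abs_mul]
        have h6 : |t| * |Real.log x - Real.log y| ≤ |t| * 1 :=
          mul_le_mul_of_nonneg_left hlog (abs_nonneg t)
        linarith

/-- Lipschitz bound near a point of a logarithmic strip -/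
theorem lipB {ν : σ → ℝ}
    (hg : ∀ (sg : ℝ) (_ : sg = 1 ∨ sg = -1) (t H : ℝ) (s : B σ), ∃ M K : ℝ, 0 ≤ M ∧ 0 ≤ K ∧
      ∀ z ∈ Str sg t H, ‖evB ν z s‖ ≤ K * (sg * z.re) ^ M)
    (hex : ∀ P : B σ, ∃ Q : B σ, ∀ z, HasDerivAt (fun z => evB ν z P) (evB ν z Q) z)
    {sg : ℝ} (hsg : sg = 1 ∨ sg = -1) (t H : ℝ) (Q : B σ) :
    ∃ M K : ℝ, 0 ≤ M ∧ 0 ≤ K ∧ ∀ z u : ℂ, z ∈ Str sg t H → 2 ≤ sg * z.re → ‖u - z‖ ≤ 1 →
      ‖evB ν u Q - evB ν z Q‖ ≤ K * (sg * z.re) ^ M * ‖u - z‖ := by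
  obtain ⟨Q', hQ'⟩ := hex Q
  obtain ⟨M, K, hM, hK, h⟩ := hg sg hsg t (H + 1 + |t|) Q'
  refine ⟨M, K * 2 ^ M, hM, by positivity, fun z u hz h2 hu => ?_⟩
  have hball : ∀ v ∈ Metric.closedBall z 1, ‖evB ν v Q'‖ ≤ K * 2 ^ M * (sg * z.re) ^ M := by
    intro v hv
    rw [mem_closedBall_iff_norm] at hv
    obtain ⟨h3, h4⟩ := mem_Str_of_near hsg hz h2 hv
    have h5 : 1 ≤ sg * v.re := h3.1
    refine (h v h3).trans ?_
    rw [mul_assoc, ← Real.mul_rpow (by norm_num) (by linarith)]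
    exact mul_le_mul_of_nonneg_left (Real.rpow_le_rpow (by linarith) h4 hM) hK
  exact (convex_closedBall z 1).norm_image_sub_le_of_norm_hasDerivWithin_le
    (fun v _ => (hQ' v).hasDerivWithinAt) hball (Metric.mem_closedBall_self zero_le_one)
    (mem_closedBall_iff_norm.2 hu)

/-- **ROW N7** over the rows N3, N7a, N7b: close distinct zeros are near common zeros of finitely
many pairs. -/
theorem pairsB_of {ν : σ → ℝ}
    (hg : ∀ (sg : ℝ) (_ : sg = 1 ∨ sg = -1) (t H : ℝ) (s : B σ), ∃ M K : ℝ, 0 ≤ M ∧ 0 ≤ K ∧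
      ∀ z ∈ Str sg t H, ‖evB ν z s‖ ≤ K * (sg * z.re) ^ M)
    (hex : ∀ P : B σ, ∃ Q : B σ, ∀ z, HasDerivAt (fun z => evB ν z P) (evB ν z Q) z)
    (hder : ∀ P : B σ, (∀ z, evB ν z P ≠ 0) ∨ P = 0 ∨ ∃ Q : B σ, ¬ P ∣ Q ∧
      ∀ z, HasDerivAt (fun z => evB ν z P) (evB ν z Q) z)
    (P : B σ) (hP : P ≠ 0) :
    ∃ D : Finset (B σ × B σ), (∀ p ∈ D, Irreducible p.1 ∧ ¬ p.1 ∣ p.2) ∧
      ∀ (sg : ℝ) (_ : sg = 1 ∨ sg = -1) (t H : ℝ), ∃ M K : ℝ, 0 ≤ M ∧ 0 ≤ K ∧
        ∀ z w : ℂ, z ∈ Str sg t H → 2 ≤ sg * z.re → evB ν z P = 0 → evB ν w P = 0 → w ≠ z →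
          ‖z - w‖ ≤ 1 → ∃ p ∈ D, ‖evB ν z p.1‖ ≤ K * (sg * z.re) ^ M * ‖z - w‖ ∧
            ‖evB ν z p.2‖ ≤ K * (sg * z.re) ^ M * ‖z - w‖ := by
  classical
  obtain ⟨s, hs, hsP⟩ := UniqueFactorizationMonoid.exists_prime_factors P hP
  have hQ : ∀ a : B σ, ∃ Q : B σ, (∃ z, evB ν z a = 0) → a ≠ 0 → ¬ a ∣ Q ∧
      ∀ z, HasDerivAt (fun z => evB ν z a) (evB ν z Q) z := by
    intro a
    rcases hder a with h | h | ⟨Q, h⟩
    · exact ⟨0, fun ⟨z, h1⟩ _ => absurd h1 (h z)⟩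
    · exact ⟨0, fun _ h1 => absurd h h1⟩
    · exact ⟨Q, fun _ _ => h⟩
  choose Q hQ using hQ
  let F : Finset (B σ) := s.toFinset
  let D : Finset (B σ × B σ) :=
    ((F ×ˢ F) ∪ F.image fun a => (a, Q a)).filter fun p => ¬ p.1 ∣ p.2
  have hF : ∀ a ∈ F, Prime a := fun a ha => hs a (Multiset.mem_toFinset.1 ha)
  -- a zero is a zero of a factor
  have hzero : ∀ z : ℂ, evB ν z P = 0 → ∃ a ∈ F, evB ν z a = 0 := by
    intro z hz
    obtain ⟨u, hu⟩ := hsP
    rw [← hu, map_mul, mul_eq_zero] at hz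
    have hu' : evB ν z (u : B σ) ≠ 0 := (u.isUnit.map (evB ν z)).ne_zero
    rw [or_iff_left hu', map_multiset_prod, Multiset.prod_eq_zero_iff, Multiset.mem_map] at hz
    obtain ⟨a, ha, ha0⟩ := hz
    exact ⟨a, Multiset.mem_toFinset.2 ha, ha0⟩
  refine ⟨D, fun p hp => ?_, fun sg hsg t H => ?_⟩
  · obtain ⟨h1, h2⟩ := Finset.mem_filter.1 hp
    refine ⟨?_, h2⟩
    rcases Finset.mem_union.1 h1 with h3 | h3
    · exact (hF _ (Finset.mem_product.1 h3).1).irreducible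
    · obtain ⟨a, ha, rfl⟩ := Finset.mem_image.1 h3
      exact (hF _ ha).irreducible
  · choose M K hM0 hK0 hK using fun a : B σ => lipB hg hex hsg t H a
    -- the larger constants
    let M' : ℝ := ∑ a ∈ F, M a + ∑ a ∈ F, M (Q a)
    let K' : ℝ := ∑ a ∈ F, K a + ∑ a ∈ F, K (Q a)
    have hsum : ∀ (G : B σ → ℝ), (∀ a, 0 ≤ G a) → ∀ a ∈ F,
        G a ≤ ∑ a ∈ F, G a + ∑ a ∈ F, G (Q a) ∧ G (Q a) ≤ ∑ a ∈ F, G a + ∑ a ∈ F, G (Q a) := by
      intro G hG a ha
      have h1 : G a ≤ ∑ a ∈ F, G a := Finset.single_le_sum (fun b _ => hG b) ha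
      have h2 : G (Q a) ≤ ∑ a ∈ F, G (Q a) :=
        Finset.single_le_sum (f := fun b => G (Q b)) (fun b _ => hG (Q b)) ha
      have h3 : 0 ≤ ∑ a ∈ F, G a := Finset.sum_nonneg fun b _ => hG b
      have h4 : 0 ≤ ∑ a ∈ F, G (Q a) := Finset.sum_nonneg fun b _ => hG (Q b)
      constructor <;> linarith
    have hM'0 : 0 ≤ M' := add_nonneg (Finset.sum_nonneg fun b _ => hM0 b)
      (Finset.sum_nonneg fun b _ => hM0 (Q b))
    have hK'0 : 0 ≤ K' := add_nonneg (Finset.sum_nonneg fun b _ => hK0 b)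
      (Finset.sum_nonneg fun b _ => hK0 (Q b))
    have hup : ∀ (x : ℝ), 2 ≤ x → ∀ q : B σ, M q ≤ M' → K q ≤ K' →
        K q * x ^ (M q) ≤ K' * x ^ M' := by
      intro x hx q h1 h2
      exact mul_le_mul h2 (Real.rpow_le_rpow_of_exponent_le (by linarith) h1)
        (Real.rpow_nonneg (by linarith) _) hK'0
    refine ⟨M', K', hM'0, hK'0, fun z w hz h2 hPz hPw hne hzw => ?_⟩
    obtain ⟨a, ha, ha0⟩ := hzero z hPz
    obtain ⟨b, hb, hb0⟩ := hzero w hPw
    have hnn : 0 ≤ ‖z - w‖ := norm_nonneg _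
    have hx0 : 0 ≤ sg * z.re := by linarith
    have hxM : 0 ≤ K' * (sg * z.re) ^ M' := mul_nonneg hK'0 (Real.rpow_nonneg hx0 _)
    by_cases hab : a ∣ b
    · -- the same factor: the derivative
      obtain ⟨d, hd⟩ := hab
      have hdu : IsUnit d := by
        rcases (hF b hb).irreducible.isUnit_or_isUnit hd with h | h
        · exact absurd h (hF a ha).not_isUnit
        · exact h
      have haw : evB ν w a = 0 := by
        rw [hd, map_mul, mul_eq_zero] at hb0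
        rcases hb0 with h | h
        · exact h
        · exact absurd h (hdu.map (evB ν w)).ne_zero
      obtain ⟨hdvd, hdr⟩ := hQ a ⟨_, ha0⟩ (hF a ha).ne_zero
      refine ⟨(a, Q a), Finset.mem_filter.2
        ⟨Finset.mem_union_right _ (Finset.mem_image_of_mem _ ha), hdvd⟩, ?_, ?_⟩
      · show ‖evB ν z a‖ ≤ _
        rw [ha0, norm_zero]
        exact mul_nonneg hxM hnn
      · have h3 : 0 ≤ K (Q a) * (sg * z.re) ^ M (Q a) :=
          mul_nonneg (hK0 _) (Real.rpow_nonneg hx0 _)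
        refine (deriv_small9 hdr h3 hne ha0 haw fun u hu => ?_).trans
          (mul_le_mul_of_nonneg_right (hup _ h2 (Q a) (hsum M hM0 a ha).2 (hsum K hK0 a ha).2) hnn)
        have huz : ‖u - z‖ ≤ ‖z - w‖ := by
          rw [norm_sub_rev z w]
          exact norm_sub_le_of_mem_segment hu
        exact (hK (Q a) z u hz h2 (huz.trans hzw)).trans (mul_le_mul_of_nonneg_left huz h3)
    · refine ⟨(a, b), Finset.mem_filter.2
        ⟨Finset.mem_union_left _ (Finset.mem_product.2 ⟨ha, hb⟩), hab⟩, ?_, ?_⟩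
      · show ‖evB ν z a‖ ≤ _
        rw [ha0, norm_zero]
        exact mul_nonneg hxM hnn
      · show ‖evB ν z b‖ ≤ _
        have h1 := hK b z w hz h2 (by rwa [norm_sub_rev])
        rw [hb0, zero_sub, norm_neg, norm_sub_rev] at h1
        exact h1.trans (mul_le_mul_of_nonneg_right
          (hup _ h2 b (hsum M hM0 b hb).1 (hsum K hK0 b hb).1) hnn)

end Pool.Agent.Helper77.EHR.Q
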